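import Mathlib

set_option autoImplicit false

namespace Pool.Agent.X144.DB

open Finset

/-- average over a finite type -/
noncomputable def av {α : Type*} [Fintype α] (F : α → ℝ) : ℝ := (∑ a, F a) / Fintype.card α

section
variable {α β : Type*} [Fintype α] [Fintype β]

lemma av_add (F G : α → ℝ) : av (fun a => F a + G a) = av F + av G := by
  unfold av; rw [Finset.sum_add_distrib, add_div]

lemma av_sub (F G : α → ℝ) : av (fun a => F a - G a) = av F - av G := by
  unfold av; rw [Finset.sum_sub_distrib, sub_div]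

lemma av_mul (c : ℝ) (F : α → ℝ) : av (fun a => c * F a) = c * av F := by
  unfold av; rw [← Finset.mul_sum, mul_div_assoc]

lemma av_const [Nonempty α] (c : ℝ) : av (fun _ : α => c) = c := by
  unfold av
  rw [Finset.sum_const, Finset.card_univ, nsmul_eq_mul]
  have : (Fintype.card α : ℝ) ≠ 0 := by
    exact_mod_cast Fintype.card_ne_zero
  field_simp

lemma av_mono {F G : α → ℝ} (h : ∀ a, F a ≤ G a) : av F ≤ av G := by
  unfold av
  exact div_le_div_of_nonneg_right (Finset.sum_le_sum fun a _ => h a) (Nat.cast_nonneg _)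

lemma av_nonneg {F : α → ℝ} (h : ∀ a, 0 ≤ F a) : 0 ≤ av F :=
  div_nonneg (Finset.sum_nonneg fun a _ => h a) (Nat.cast_nonneg _)

lemma av_sum {ι : Type*} (s : Finset ι) (F : ι → α → ℝ) :
    av (fun a => ∑ i ∈ s, F i a) = ∑ i ∈ s, av (F i) := by
  unfold av
  rw [Finset.sum_comm, Finset.sum_div]

lemma av_equiv (e : α ≃ β) (F : β → ℝ) : av (fun a => F (e a)) = av F := by
  unfold av
  rw [Equiv.sum_comp e F, Fintype.card_congr e]

lemma av_prod (F : α × β → ℝ) : av F = av (fun a => av (fun b => F (a, b))) := by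
  unfold av
  rw [Fintype.sum_prod_type, ← Finset.sum_div, div_div, Fintype.card_prod, mul_comm]
  push_cast
  rw [mul_comm]

lemma av_comm (F : α → β → ℝ) : av (fun a => av (fun b => F a b)) =
    av (fun b => av (fun a => F a b)) := by
  rw [← av_prod (fun q : α × β => F q.1 q.2), ← av_prod (fun q : β × α => F q.2 q.1)]
  exact (av_equiv (Equiv.prodComm β α) (fun q : α × β => F q.1 q.2)).symm

end

section cons
variable {S : Type*} [Fintype S] {r : ℕ}

lemma av_cons (F : (Fin (r + 1) → S) → ℝ) :
    av F = av (fun i => av (fun y : Fin r → S => F (Fin.cons i y))) := by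
  rw [← av_equiv (Fin.consEquiv fun _ : Fin (r + 1) => S) F, av_prod]
  rfl

lemma av_perm (π : Equiv.Perm (Fin r)) (F : (Fin r → S) → ℝ) :
    av (fun f => F (f ∘ π)) = av F := by
  exact av_equiv (Equiv.arrowCongr π.symm (Equiv.refl S)) F

variable [Nonempty S]

lemma av_coord (b : S → ℝ) (l : Fin (r + 1)) :
    av (fun f : Fin (r + 1) → S => b (f l)) = av b := by
  rw [← av_perm (Equiv.swap 0 l) (fun f : Fin (r + 1) → S => b (f l))]
  have h1 : (fun f : Fin (r + 1) → S => b ((f ∘ Equiv.swap 0 l) l)) = fun f => b (f 0) := by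
    funext f
    simp [Equiv.swap_apply_right]
  rw [h1, av_cons]
  have h2 : (fun i : S => av (fun y : Fin r → S => b ((Fin.cons i y : Fin (r + 1) → S) 0))) = b := by
    funext i
    simp only [Fin.cons_zero]
    exact av_const _
  rw [h2]

lemma av_two (a b : S → ℝ) {l m : Fin (r + 1)} (hlm : l ≠ m) :
    av (fun f : Fin (r + 1) → S => a (f l) * b (f m)) = av a * av b := by
  obtain ⟨m', hm'⟩ : ∃ m', Equiv.swap 0 l m' = m := ⟨Equiv.swap 0 l m, by simp⟩
  have hm0 : m' ≠ 0 := by
    rintro rfl
    rw [Equiv.swap_apply_left] at hm'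
    exact hlm hm'
  obtain ⟨m'', rfl⟩ := Fin.exists_succ_eq.2 hm0
  have h1 : av (fun f : Fin (r + 1) → S => a (f l) * b (f m)) =
      av (fun f : Fin (r + 1) → S => a (f 0) * b (f m''.succ)) := by
    rw [← av_perm (Equiv.swap 0 l) (fun f : Fin (r + 1) → S => a (f 0) * b (f m''.succ))]
    congr 1
    funext f
    simp only [Function.comp]
    rw [Equiv.swap_apply_left, hm']
  rw [h1, av_cons]
  have h2 : ∀ i : S, av (fun y : Fin r → S => a ((Fin.cons i y : Fin (r + 1) → S) 0) *
      b ((Fin.cons i y : Fin (r + 1) → S) m''.succ)) = av b * a i := by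
    intro i
    simp only [Fin.cons_zero, Fin.cons_succ]
    rw [av_mul]
    cases r with
    | zero => exact m''.elim0
    | succ r => rw [av_coord b m'', mul_comm]
  simp only [h2]
  rw [av_mul, mul_comm]

/-- the projection bound -/
lemma var_bound (h : (Fin (r + 1) → S) → ℝ) (h0 : ∀ f, 0 ≤ h f) (h1 : ∀ f, h f ≤ 1)
    (hs : ∀ (π : Equiv.Perm (Fin (r + 1))) f, h (f ∘ π) = h f) :
    av (fun i => (av (fun y : Fin r → S => h (Fin.cons i y))) ^ 2) ≤
      (av h) ^ 2 + 1 / ((r : ℝ) + 1) := by
  set g : S → ℝ := fun i => av (fun y : Fin r → S => h (Fin.cons i y)) with hg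
  set μ := av h with hμ
  have hμg : av g = μ := (av_cons h).symm
  have hμ0 : 0 ≤ μ := av_nonneg h0
  let gh : S → ℝ := fun i => g i - μ
  have hgh0 : av gh = 0 := by
    show av (fun i => g i - μ) = 0
    rw [av_sub, hμg, av_const, sub_self]
  set V := av (fun i => gh i ^ 2) with hV
  have hV2 : av (fun i => g i ^ 2) = μ ^ 2 + V := by
    have : (fun i => g i ^ 2) = fun i => (gh i ^ 2 + (2 * μ) * gh i) + μ ^ 2 := by
      funext i
      show g i ^ 2 = ((g i - μ) ^ 2 + (2 * μ) * (g i - μ)) + μ ^ 2
      ring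
    rw [this, av_add, av_add, av_mul, hgh0, av_const]
    ring
  -- cross terms
  have hcross : ∀ l : Fin (r + 1), av (fun f : Fin (r + 1) → S => (h f - μ) * gh (f l)) = V := by
    intro l
    have e1 : av (fun f : Fin (r + 1) → S => (h f - μ) * gh (f l)) =
        av (fun f : Fin (r + 1) → S => (h f - μ) * gh (f 0)) := by
      rw [← av_perm (Equiv.swap 0 l) (fun f : Fin (r + 1) → S => (h f - μ) * gh (f 0))]
      congr 1
      funext f
      simp only [hs, Function.comp, Equiv.swap_apply_left]
    rw [e1, av_cons]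
    have e2 : ∀ i : S, av (fun y : Fin r → S => (h (Fin.cons i y) - μ) *
        gh ((Fin.cons i y : Fin (r + 1) → S) 0)) = gh i ^ 2 := by
      intro i
      simp only [Fin.cons_zero]
      have : (fun y : Fin r → S => (h (Fin.cons i y) - μ) * gh i) =
          fun y => gh i * (h (Fin.cons i y) - μ) := by
        funext y; ring
      rw [this, av_mul, av_sub, av_const]
      show gh i * (g i - μ) = gh i ^ 2
      show (g i - μ) * (g i - μ) = (g i - μ) ^ 2
      ring
    simp only [e2]
    rfl
  have hTT : av (fun f : Fin (r + 1) → S => (∑ l, gh (f l)) ^ 2) = ((r : ℝ) + 1) * V := by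
    have e1 : (fun f : Fin (r + 1) → S => (∑ l, gh (f l)) ^ 2) =
        fun f => ∑ l, ∑ m, gh (f l) * gh (f m) := by
      funext f
      rw [sq, Finset.sum_mul_sum]
    rw [e1, av_sum]
    have e2 : ∀ l : Fin (r + 1), av (fun f : Fin (r + 1) → S => ∑ m, gh (f l) * gh (f m)) = V := by
      intro l
      rw [av_sum, Finset.sum_eq_single l]
      · have : (fun f : Fin (r + 1) → S => gh (f l) * gh (f l)) =
            fun f => (fun i => gh i ^ 2) (f l) := by
          funext f; simp only; ring
        rw [this]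
        exact av_coord (fun i => gh i ^ 2) l
      · intro m _ hm
        rw [av_two gh gh hm.symm, hgh0, zero_mul]
      · intro h; exact absurd (Finset.mem_univ l) h
    rw [Finset.sum_congr rfl fun l _ => e2 l, Finset.sum_const, Finset.card_univ,
      Fintype.card_fin, nsmul_eq_mul]
    push_cast
    ring
  have hpos : 0 ≤ av (fun f : Fin (r + 1) → S => (h f - μ - ∑ l, gh (f l)) ^ 2) :=
    av_nonneg fun f => sq_nonneg _
  have hexp : (fun f : Fin (r + 1) → S => (h f - μ - ∑ l, gh (f l)) ^ 2) =
      fun f => ((h f - μ) ^ 2 - 2 * ∑ l, (h f - μ) * gh (f l)) + (∑ l, gh (f l)) ^ 2 := by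
    funext f
    rw [← Finset.mul_sum]
    ring
  rw [hexp, av_add, av_sub, av_mul, av_sum, Finset.sum_congr rfl fun l _ => hcross l,
    Finset.sum_const, Finset.card_univ, Fintype.card_fin, nsmul_eq_mul, hTT] at hpos
  push_cast at hpos
  have hvar : av (fun f : Fin (r + 1) → S => (h f - μ) ^ 2) ≤ 1 := by
    have : ∀ f, (h f - μ) ^ 2 ≤ 1 := by
      intro f
      have hμ1 : μ ≤ 1 := by
        rw [hμ, ← av_const (α := Fin (r + 1) → S) (1 : ℝ)]
        exact av_mono h1
      have := h0 f
      have := h1 f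
      nlinarith
    calc av (fun f : Fin (r + 1) → S => (h f - μ) ^ 2) ≤ av (fun _ : Fin (r + 1) → S => (1 : ℝ)) :=
          av_mono this
      _ = 1 := av_const _
  have hr : (0 : ℝ) < (r : ℝ) + 1 := by positivity
  have hVle : V ≤ 1 / ((r : ℝ) + 1) := by
    rw [le_div_iff₀ hr]
    nlinarith
  rw [hV2]
  linarith

end cons

end Pool.Agent.X144.DB
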