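import Pool.Agent.X144.DB.Rank

set_option autoImplicit false
set_option linter.unusedSectionVars false

namespace Pool.Agent.X144.DB

open Finset

/-- indicator of a proposition -/
noncomputable def ind (p : Prop) : ℝ := by classical exact if p then 1 else 0

lemma ind_true {p : Prop} (h : p) : ind p = 1 := by unfold ind; simp [h]
lemma ind_false {p : Prop} (h : ¬ p) : ind p = 0 := by unfold ind; simp [h]
lemma ind_nonneg (p : Prop) : 0 ≤ ind p := by
  by_cases h : p
  · rw [ind_true h]; norm_num
  · rw [ind_false h]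
lemma ind_le_one (p : Prop) : ind p ≤ 1 := by
  by_cases h : p
  · rw [ind_true h]
  · rw [ind_false h]; norm_num
lemma ind_mono {p q : Prop} (h : p → q) : ind p ≤ ind q := by
  by_cases hp : p
  · rw [ind_true hp, ind_true (h hp)]
  · rw [ind_false hp]; exact ind_nonneg q
lemma ind_congr {p q : Prop} (h : p ↔ q) : ind p = ind q := by
  rw [propext h]

/-- at most one of the propositions holds -/
lemma sum_ind_le {ι : Type*} [Fintype ι] (p : ι → Prop) (h : ∀ i j, p i → p j → i = j) :
    ∑ i, ind (p i) ≤ ind (∃ i, p i) := by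
  classical
  by_cases hex : ∃ i, p i
  · rw [ind_true hex]
    obtain ⟨i, hi⟩ := hex
    rw [Finset.sum_eq_single i (fun j _ hj => ind_false fun hpj => hj (h j i hpj hi))
      (fun hh => absurd (Finset.mem_univ i) hh)]
    exact ind_le_one _
  · have : ∀ i, ¬ p i := fun i hi => hex ⟨i, hi⟩
    rw [Finset.sum_eq_zero fun i _ => ind_false (this i)]
    exact ind_nonneg _

variable {S : Type*} [Fintype S] [DecidableEq S]

/-- image -/
def im {n : ℕ} (s : Fin n → S) : Finset S := Finset.univ.image s

lemma mem_im {n : ℕ} (s : Fin n → S) (l : Fin n) : s l ∈ im s :=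
  Finset.mem_image_of_mem s (Finset.mem_univ l)

lemma im_perm {n : ℕ} (s : Fin n → S) (π : Equiv.Perm (Fin n)) : im (s ∘ π) = im s := by
  ext a
  simp only [im, Finset.mem_image, Finset.mem_univ, true_and, Function.comp]
  constructor
  · rintro ⟨l, hl⟩; exact ⟨π l, hl⟩
  · rintro ⟨l, hl⟩; exact ⟨π.symm l, by rw [Equiv.apply_symm_apply]; exact hl⟩

lemma im_cons {n : ℕ} (i : S) (s : Fin n → S) :
    im (Fin.cons i s : Fin (n + 1) → S) = insert i (im s) := by
  ext a
  simp only [im, Finset.mem_image, Finset.mem_univ, true_and, Finset.mem_insert]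
  constructor
  · rintro ⟨l, hl⟩
    refine Fin.cases (fun h => ?_) (fun l h => ?_) l hl
    · left; rw [← h, Fin.cons_zero]
    · right; exact ⟨l, by rw [← h, Fin.cons_succ]⟩
  · rintro (h | ⟨l, hl⟩)
    · exact ⟨0, by rw [Fin.cons_zero, h]⟩
    · exact ⟨l.succ, by rw [Fin.cons_succ, hl]⟩

lemma card_im_le {n : ℕ} (s : Fin n → S) : (im s).card ≤ n := by
  calc (im s).card ≤ (Finset.univ : Finset (Fin n)).card := Finset.card_image_le
    _ = n := by simp

/-- if the union has full cardinality then everything is injective and disjoint -/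
lemma inj_of_card {n m : ℕ} (s : Fin n → S) (y : Fin m → S) (h : (im s ∪ im y).card = n + m) :
    Function.Injective s ∧ Function.Injective y ∧ Disjoint (im s) (im y) := by
  have h1 := Finset.card_union_add_card_inter (im s) (im y)
  have h2 := card_im_le s
  have h3 := card_im_le y
  have h4 : (im s).card = n := by omega
  have h5 : (im y).card = m := by omega
  have h6 : (im s ∩ im y).card = 0 := by omega
  refine ⟨?_, ?_, ?_⟩
  · have : (Finset.univ.image s).card = (Finset.univ : Finset (Fin n)).card := by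
      rw [Finset.card_univ, Fintype.card_fin]; exact h4
    rw [Finset.card_image_iff] at this
    exact fun a b hab => this (Finset.mem_coe.2 (Finset.mem_univ a))
      (Finset.mem_coe.2 (Finset.mem_univ b)) hab
  · have : (Finset.univ.image y).card = (Finset.univ : Finset (Fin m)).card := by
      rw [Finset.card_univ, Fintype.card_fin]; exact h5
    rw [Finset.card_image_iff] at this
    exact fun a b hab => this (Finset.mem_coe.2 (Finset.mem_univ a))
      (Finset.mem_coe.2 (Finset.mem_univ b)) hab
  · rw [Finset.card_eq_zero] at h6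
    exact Finset.disjoint_iff_inter_eq_empty.2 h6

section
variable [Nonempty S]

/-- product formula -/
lemma av_prod_pow (φ : S → ℝ) (r : ℕ) : av (fun f : Fin r → S => ∏ l, φ (f l)) = (av φ) ^ r := by
  induction r with
  | zero =>
    simp only [Finset.univ_eq_empty, Finset.prod_empty, pow_zero]
    exact av_const _
  | succ r ih =>
    rw [av_cons]
    have h1 : (fun i : S => av (fun y : Fin r → S =>
        ∏ l, φ ((Fin.cons i y : Fin (r + 1) → S) l))) = fun i => (av φ) ^ r * φ i := by
      funext i
      rw [← ih]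
      have h2 : (fun y : Fin r → S => ∏ l, φ ((Fin.cons i y : Fin (r + 1) → S) l)) =
          fun y => φ i * ∏ l, φ (y l) := by
        funext y
        rw [Fin.prod_univ_succ]
        simp only [Fin.cons_zero, Fin.cons_succ]
      rw [h2, av_mul, mul_comm]
    rw [h1, av_mul, pow_succ]

lemma av_ind_mem (D : Finset S) : av (fun i => ind (i ∈ D)) = (D.card : ℝ) / Fintype.card S := by
  classical
  unfold av
  congr 1
  have : ∀ i : S, ind (i ∈ D) = if i ∈ D then 1 else 0 := by
    intro i
    by_cases h : i ∈ D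
    · rw [ind_true h, if_pos h]
    · rw [ind_false h, if_neg h]
  simp only [this]
  rw [Finset.sum_ite_mem, Finset.univ_inter, Finset.sum_const, nsmul_eq_mul, mul_one]

lemma av_hit (D : Finset S) (r : ℕ) : av (fun f : Fin r → S => ind (∃ l, f l ∈ D)) =
    1 - (1 - (D.card : ℝ) / Fintype.card S) ^ r := by
  have h1 : (fun f : Fin r → S => ind (∃ l, f l ∈ D)) =
      fun f => 1 - ∏ l, (1 - ind (f l ∈ D)) := by
    funext f
    by_cases h : ∃ l, f l ∈ D
    · rw [ind_true h]
      obtain ⟨l, hl⟩ := h
      rw [Finset.prod_eq_zero (Finset.mem_univ l) (by rw [ind_true hl, sub_self]), sub_zero]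
    · rw [ind_false h]
      have : ∀ l, ¬ f l ∈ D := fun l hl => h ⟨l, hl⟩
      rw [Finset.prod_eq_one fun l _ => by rw [ind_false (this l), sub_zero], sub_self]
  rw [h1, av_sub, av_const]
  have h2 := av_prod_pow (fun i : S => 1 - ind (i ∈ D)) r
  rw [h2, av_sub, av_const, av_ind_mem]

/-- exchangeability -/
lemma av_sym {r : ℕ} (K : S → (Fin (r + 1) → S) → ℝ)
    (hK : ∀ a f (π : Equiv.Perm (Fin (r + 1))), K a (f ∘ π) = K a f) :
    ((r : ℝ) + 1) * av (fun i => av (fun y : Fin r → S => K i (Fin.cons i y))) =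
      av (fun f => ∑ l, K (f l) f) := by
  rw [av_sum]
  have h1 : ∀ l : Fin (r + 1), av (fun f : Fin (r + 1) → S => K (f l) f) =
      av (fun i => av (fun y : Fin r → S => K i (Fin.cons i y))) := by
    intro l
    have h2 : av (fun f : Fin (r + 1) → S => K (f l) f) =
        av (fun f : Fin (r + 1) → S => K (f 0) f) := by
      rw [← av_perm (Equiv.swap 0 l) (fun f : Fin (r + 1) → S => K (f l) f)]
      congr 1
      funext f
      simp only [hK, Function.comp, Equiv.swap_apply_right]
    rw [h2, av_cons]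
    simp only [Fin.cons_zero]
  rw [Finset.sum_congr rfl fun l _ => h1 l, Finset.sum_const, Finset.card_univ, Fintype.card_fin,
    nsmul_eq_mul]
  push_cast
  ring

/-- the two bounds for a fixed `x` -/
lemma two_bounds (j r : ℕ) (c : Finset S → Option S)
    (hc : ∀ A a, c A = some a → a ∈ A ∧ A.card = j + (r + 1)) (x : Fin j → S) :
    ∃ v : ℝ, 
      ((r : ℝ) + 1) * av (fun i => (av (fun y : Fin r → S =>
        ind (c (im x ∪ im (Fin.cons i y : Fin (r + 1) → S)) = some i))) ^ 2) ≤
        v - v ^ 2 / 2 + 1 / ((r : ℝ) + 1) + ((r : ℝ) + 1) / (2 * Fintype.card S) ∧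
      av (fun i => (av (fun y : Fin r → S =>
        ind (∃ l, c (im x ∪ im (Fin.cons i y : Fin (r + 1) → S)) = some (x l)))) ^ 2) ≤
        (1 - v) ^ 2 + 1 / ((r : ℝ) + 1) := by
  set W : S → ℝ := fun i => av (fun y : Fin r → S =>
    ind (c (im x ∪ im (Fin.cons i y : Fin (r + 1) → S)) = some i)) with hW
  set v : ℝ := ((r : ℝ) + 1) * av W with hv
  have hW0 : ∀ i, 0 ≤ W i := fun i => av_nonneg fun _ => ind_nonneg _
  have hr0 : (0 : ℝ) < (r : ℝ) + 1 := by positivity
  have hv0 : 0 ≤ v := mul_nonneg hr0.le (av_nonneg hW0)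
  have hNpos : (0 : ℝ) < Fintype.card S := by exact_mod_cast Fintype.card_pos
  -- `v` as an average
  have hveq : v = av (fun f : Fin (r + 1) → S => ∑ l, ind (c (im x ∪ im f) = some (f l))) :=
    av_sym (fun a f => ind (c (im x ∪ im f) = some a)) (by
      intro a f π
      simp only [im_perm])
  set h : (Fin (r + 1) → S) → ℝ := fun f => ind (∃ l, c (im x ∪ im f) = some (x l)) with hh
  have huniq : ∀ f : Fin (r + 1) → S, ∀ l l' : Fin (r + 1), c (im x ∪ im f) = some (f l) →
      c (im x ∪ im f) = some (f l') → l = l' := by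
    intro f l l' h1 h2
    have h3 := inj_of_card x f (hc _ _ h1).2
    rw [h1] at h2
    exact h3.2.1 (Option.some.inj h2)
  have hsum : ∀ f : Fin (r + 1) → S, ∑ l, ind (c (im x ∪ im f) = some (f l)) + h f ≤ 1 := by
    intro f
    have h1 := sum_ind_le (fun l => c (im x ∪ im f) = some (f l)) (huniq f)
    by_cases h2 : ∃ l, c (im x ∪ im f) = some (x l)
    · have h3 : ¬ ∃ l, c (im x ∪ im f) = some (f l) := by
        rintro ⟨l, hl⟩
        obtain ⟨l', hl'⟩ := h2
        have h4 := inj_of_card x f (hc _ _ hl).2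
        rw [hl] at hl'
        have h5 := Option.some.inj hl'
        have h6 := mem_im f l
        rw [h5] at h6
        exact Finset.disjoint_left.1 h4.2.2 (mem_im x l') h6
      rw [ind_false h3] at h1
      have h4 : h f ≤ 1 := ind_le_one _
      linarith
    · have h3 : h f = 0 := ind_false h2
      rw [h3, add_zero]
      exact h1.trans (ind_le_one _)
  have hvh : v + av h ≤ 1 := by
    rw [hveq, ← av_add]
    calc av (fun a => ∑ l, ind (c (im x ∪ im a) = some (a l)) + h a) ≤
        av (fun _ : Fin (r + 1) → S => (1 : ℝ)) := av_mono hsum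
      _ = 1 := av_const _
  have hh0 : 0 ≤ av h := av_nonneg fun _ => ind_nonneg _
  refine ⟨v, ?_, ?_⟩
  · refine rank_bound r W hW0 v hv0 (by linarith) ?_
    intro D
    have e1 : ((r : ℝ) + 1) / Fintype.card S * ∑ i ∈ D, W i =
        ((r : ℝ) + 1) * av (fun i => ind (i ∈ D) * W i) := by
      have : ∑ i ∈ D, W i = ∑ i, ind (i ∈ D) * W i := by
        rw [← Finset.sum_subset (Finset.subset_univ D)]
        · refine Finset.sum_congr rfl fun i hi => ?_
          rw [ind_true hi, one_mul]
        · intro i _ hi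
          rw [ind_false hi, zero_mul]
      rw [this]
      unfold av
      ring
    rw [e1]
    refine le_min ?_ ?_
    · rw [hv]
      refine mul_le_mul_of_nonneg_left (av_mono fun i => ?_) hr0.le
      have := mul_le_mul_of_nonneg_right (ind_le_one (i ∈ D)) (hW0 i)
      linarith
    · have e2 : (fun i => ind (i ∈ D) * W i) = fun i => av (fun y : Fin r → S =>
          ind (i ∈ D) * ind (c (im x ∪ im (Fin.cons i y : Fin (r + 1) → S)) = some i)) := by
        funext i
        rw [hW]
        exact (av_mul _ _).symm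
      rw [e2, av_sym (fun a f => ind (a ∈ D) * ind (c (im x ∪ im f) = some a)) (by
        intro a f π
        simp only [im_perm]), ← av_hit D (r + 1)]
      refine av_mono fun f => ?_
      by_cases hex : ∃ l, f l ∈ D
      · rw [ind_true hex]
        calc ∑ l, ind (f l ∈ D) * ind (c (im x ∪ im f) = some (f l)) ≤
            ∑ l, ind (c (im x ∪ im f) = some (f l)) := by
              refine Finset.sum_le_sum fun l _ => ?_
              have := mul_le_mul_of_nonneg_right (ind_le_one (f l ∈ D))
                (ind_nonneg (c (im x ∪ im f) = some (f l)))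
              linarith
          _ ≤ ind (∃ l, c (im x ∪ im f) = some (f l)) := sum_ind_le _ (huniq f)
          _ ≤ 1 := ind_le_one _
      · have : ∀ l, ¬ f l ∈ D := fun l hl => hex ⟨l, hl⟩
        rw [Finset.sum_eq_zero fun l _ => by rw [ind_false (this l), zero_mul]]
        exact ind_nonneg _
  · have h1 := var_bound h (fun f => ind_nonneg _) (fun f => ind_le_one _) (by
      intro π f
      simp only [hh, im_perm])
    have h2 : (av h) ^ 2 ≤ (1 - v) ^ 2 := pow_le_pow_left₀ hh0 (by linarith) 2
    calc av (fun i => (av (fun y : Fin r → S => h (Fin.cons i y))) ^ 2) ≤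
        (av h) ^ 2 + 1 / ((r : ℝ) + 1) := h1
      _ ≤ _ := by linarith

/-- the weight of the `l`-th common element -/
noncomputable def wt {j r : ℕ} (c : Finset S → Option S) (l : Fin (j + 1)) (s : Fin (j + 1) → S) :
    ℝ := av (fun y : Fin r → S => ind (c (im s ∪ im y) = some (s l)))

/-- **the combinatorial core** -/
theorem core (j r : ℕ) (c : Finset S → Option S)
    (hc : ∀ A a, c A = some a → a ∈ A ∧ A.card = j + (r + 1)) :
    (2 * ((r : ℝ) + 1) + j) * ∑ l, av (fun s : Fin (j + 1) → S => (wt (r := r) c l s) ^ 2) ≤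
      ((j : ℝ) + 1) * (1 + 3 / ((r : ℝ) + 1) + ((r : ℝ) + 1) / Fintype.card S) := by
  have hr0 : (0 : ℝ) < (r : ℝ) + 1 := by positivity
  have hNpos : (0 : ℝ) < Fintype.card S := by exact_mod_cast Fintype.card_pos
  set p : ℝ := av (fun s : Fin (j + 1) → S => (wt (r := r) c 0 s) ^ 2) with hp
  have hsymm : ∀ l : Fin (j + 1), av (fun s : Fin (j + 1) → S => (wt (r := r) c l s) ^ 2) = p := by
    intro l
    rw [← av_perm (Equiv.swap 0 l) (fun s : Fin (j + 1) → S => (wt (r := r) c l s) ^ 2), hp]
    congr 1
    funext s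
    unfold wt
    simp only [im_perm, Function.comp, Equiv.swap_apply_right]
  have hunion : ∀ (i : S) (x : Fin j → S) (y : Fin r → S),
      im (Fin.cons i x : Fin (j + 1) → S) ∪ im y = im x ∪ im (Fin.cons i y : Fin (r + 1) → S) := by
    intro i x y
    rw [im_cons, im_cons, Finset.insert_union, Finset.union_insert]
  -- the first average
  have hp1 : p = av (fun x : Fin j → S => av (fun i => (av (fun y : Fin r → S =>
        ind (c (im x ∪ im (Fin.cons i y : Fin (r + 1) → S)) = some i))) ^ 2)) := by
    rw [hp, av_cons, av_comm]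
    congr 1
    funext x
    congr 1
    funext i
    unfold wt
    simp only [hunion, Fin.cons_zero]
  -- the second average
  have hp2 : (j : ℝ) * p ≤ av (fun x : Fin j → S => av (fun i => (av (fun y : Fin r → S =>
        ind (∃ l, c (im x ∪ im (Fin.cons i y : Fin (r + 1) → S)) = some (x l)))) ^ 2)) := by
    have e1 : (j : ℝ) * p = ∑ l : Fin j,
        av (fun s : Fin (j + 1) → S => (wt (r := r) c l.succ s) ^ 2) := by
      rw [Finset.sum_congr rfl fun l _ => hsymm l.succ, Finset.sum_const, Finset.card_univ,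
        Fintype.card_fin, nsmul_eq_mul]
    rw [e1, ← av_sum, av_cons, av_comm]
    refine av_mono fun x => av_mono fun i => ?_
    have h1 : ∀ l : Fin j, wt (r := r) c l.succ (Fin.cons i x : Fin (j + 1) → S) =
        av (fun y : Fin r → S =>
          ind (c (im x ∪ im (Fin.cons i y : Fin (r + 1) → S)) = some (x l))) := by
      intro l
      unfold wt
      simp only [hunion, Fin.cons_succ]
    simp only [h1]
    set a : Fin j → ℝ := fun l => av (fun y : Fin r → S =>
          ind (c (im x ∪ im (Fin.cons i y : Fin (r + 1) → S)) = some (x l))) with ha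
    have ha0 : ∀ l, 0 ≤ a l := fun l => av_nonneg fun _ => ind_nonneg _
    have hsq : ∑ l, a l ^ 2 ≤ (∑ l, a l) ^ 2 := by
      rw [sq (∑ l, a l), Finset.mul_sum]
      refine Finset.sum_le_sum fun l _ => ?_
      rw [sq]
      exact mul_le_mul_of_nonneg_right
        (Finset.single_le_sum (f := a) (fun l _ => ha0 l) (Finset.mem_univ l)) (ha0 l)
    calc ∑ l, a l ^ 2 ≤ (∑ l, a l) ^ 2 := hsq
      _ ≤ _ := by
        refine pow_le_pow_left₀ (Finset.sum_nonneg fun l _ => ha0 l) ?_ 2
        rw [ha, ← av_sum]
        refine av_mono fun y => ?_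
        refine sum_ind_le _ ?_
        intro l l' g1 g2
        have g3 := inj_of_card x (Fin.cons i y : Fin (r + 1) → S) (hc _ _ g1).2
        rw [g1] at g2
        exact g3.1 (Option.some.inj g2)
  choose v hv1 hv2 using fun x : Fin j → S => two_bounds j r c hc x
  have hb1 : ((r : ℝ) + 1) * p ≤ av (fun x => v x - v x ^ 2 / 2) + 1 / ((r : ℝ) + 1) +
      ((r : ℝ) + 1) / (2 * Fintype.card S) := by
    rw [hp1, ← av_mul]
    refine (av_mono hv1).trans (le_of_eq ?_)
    rw [av_add, av_add, av_const, av_const]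
  have hb2 : (j : ℝ) * p ≤ 1 - 2 * av (fun x => v x - v x ^ 2 / 2) + 1 / ((r : ℝ) + 1) := by
    refine hp2.trans ((av_mono hv2).trans (le_of_eq ?_))
    have : (fun x : Fin j → S => (1 - v x) ^ 2 + 1 / ((r : ℝ) + 1)) =
        fun x => ((1 : ℝ) - 2 * (v x - v x ^ 2 / 2)) + 1 / ((r : ℝ) + 1) := by
      funext x; ring
    rw [this, av_add, av_sub, av_mul, av_const, av_const]
  rw [Finset.sum_congr rfl fun l _ => hsymm l, Finset.sum_const, Finset.card_univ,
    Fintype.card_fin, nsmul_eq_mul]
  push_cast
  have e3 : ((r : ℝ) + 1) / Fintype.card S = 2 * (((r : ℝ) + 1) / (2 * Fintype.card S)) := by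
    field_simp
  have e4 : 3 / ((r : ℝ) + 1) = 3 * (1 / ((r : ℝ) + 1)) := by ring
  rw [e3, e4]
  have h5 : (2 * ((r : ℝ) + 1) + j) * p ≤ 1 + 3 * (1 / ((r : ℝ) + 1)) +
      2 * (((r : ℝ) + 1) / (2 * Fintype.card S)) := by
    nlinarith
  have h6 := mul_le_mul_of_nonneg_left h5 (show 0 ≤ (j : ℝ) + 1 by positivity)
  linarith

end

end Pool.Agent.X144.DB
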