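import Mathlib

/-!
# Total variation distance and disagreement bounds
-/

set_option autoImplicit false

namespace Pool.Agent.X144.DB

open MeasureTheory

/-- The total variation distance `sup_A |μ(A) - ν(A)|` over the measurable sets `A`. -/
noncomputable def dTV (μ ν : Measure ℝ) : ℝ :=
  ⨆ A : {A : Set ℝ // MeasurableSet A}, |μ.real A.1 - ν.real A.1|

/-- `f` (restricted to `[0,1]`) is a disagreement bound: it maps `[0,1]` to `[0,1]`, and for all
finite families of laws `μ i` on the real line there are random variables `X i` on one probability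
space with these laws such that `P(X i ≠ X j) ≤ f (dTV (μ i) (μ j))` for all `i ≠ j`. -/
def IsDisagreementBound (f : ℝ → ℝ) : Prop :=
  (∀ x ∈ Set.Icc (0 : ℝ) 1, f x ∈ Set.Icc (0 : ℝ) 1) ∧
  ∀ (ι : Type) [Finite ι] (μ : ι → Measure ℝ), (∀ i, IsProbabilityMeasure (μ i)) →
    ∃ (Ω : Type) (_ : MeasurableSpace Ω) (P : Measure Ω) (X : ι → Ω → ℝ),
      IsProbabilityMeasure P ∧ (∀ i, Measurable (X i)) ∧ (∀ i, P.map (X i) = μ i) ∧
      ∀ i j, i ≠ j → P.real {ω | X i ω ≠ X j ω} ≤ f (dTV (μ i) (μ j))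

end Pool.Agent.X144.DB
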