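import Pool.Agent.X144.DB.Rej

/-!
# `2x/(1+x)` is a disagreement bound
-/

set_option autoImplicit false

namespace Pool.Agent.X144.DB

open MeasureTheory

/-- the function `2x/(1+x)` -/
noncomputable def FF (x : ℝ) : ℝ := 2 * x / (1 + x)

lemma FF_mono {x y : ℝ} (hx : 0 ≤ x) (hxy : x ≤ y) : FF x ≤ FF y := by
  unfold FF
  rw [div_le_div_iff₀ (by linarith) (by linarith)]
  nlinarith

lemma FF_mem {x : ℝ} (hx : x ∈ Set.Icc (0 : ℝ) 1) : FF x ∈ Set.Icc (0 : ℝ) 1 := by
  unfold FF
  constructor
  · exact div_nonneg (by linarith [hx.1]) (by linarith [hx.1])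
  · rw [div_le_one (by linarith [hx.1])]
    linarith [hx.2]

/-- the uniform measure on the unit interval -/
noncomputable def unif : Measure ℝ := volume.restrict (Set.Icc 0 1)

instance : IsProbabilityMeasure unif := ⟨by unfold unif; simp⟩

lemma unif_le {r : ℝ} (h0 : 0 ≤ r) (h1 : r ≤ 1) : unif {u | u ≤ r} = ENNReal.ofReal r := by
  unfold unif
  have hms : MeasurableSet {u : ℝ | u ≤ r} := measurableSet_le measurable_id measurable_const
  rw [Measure.restrict_apply hms]
  have : {u : ℝ | u ≤ r} ∩ Set.Icc 0 1 = Set.Icc 0 r := by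
    ext u
    simp only [Set.mem_inter_iff, Set.mem_ofPred_eq, Set.mem_Icc]
    constructor
    · rintro ⟨h2, h3, _⟩; exact ⟨h3, h2⟩
    · rintro ⟨h2, h3⟩; exact ⟨h3, h2, h3.trans h1⟩
  rw [this, Real.volume_Icc, sub_zero]

/-- the acceptance region -/
def reg (r : ℝ → ℝ) : Set (ℝ × ℝ) := {p | p.2 ≤ r p.1}

lemma meas_reg {r : ℝ → ℝ} (hr : Measurable r) : MeasurableSet (reg r) :=
  measurableSet_le measurable_snd (hr.comp measurable_fst)

lemma prod_reg (ν : Measure ℝ) [SFinite ν] {r : ℝ → ℝ} (hr : Measurable r)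
    (h0 : ∀ y, 0 ≤ r y) (h1 : ∀ y, r y ≤ 1) {A : Set ℝ} (hA : MeasurableSet A) :
    (ν.prod unif) (reg r ∩ Prod.fst ⁻¹' A) = ∫⁻ y in A, ENNReal.ofReal (r y) ∂ν := by
  rw [Measure.prod_apply ((meas_reg hr).inter (measurable_fst hA)),
    ← lintegral_indicator hA]
  congr 1
  funext y
  by_cases hy : y ∈ A
  · rw [Set.indicator_of_mem hy]
    have : Prod.mk y ⁻¹' (reg r ∩ Prod.fst ⁻¹' A) = {u | u ≤ r y} := by
      ext u
      simp only [reg, Set.mem_preimage, Set.mem_inter_iff, Set.mem_ofPred_eq]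
      exact ⟨fun h => h.1, fun h => ⟨h, hy⟩⟩
    rw [this, unif_le (h0 y) (h1 y)]
  · rw [Set.indicator_of_notMem hy]
    have : Prod.mk y ⁻¹' (reg r ∩ Prod.fst ⁻¹' A) = ∅ := by
      ext u
      simp only [reg, Set.mem_preimage, Set.mem_inter_iff, Set.mem_empty_iff_false, iff_false]
      exact fun h => hy h.2
    rw [this, measure_empty]

lemma prod_reg' (ν : Measure ℝ) [SFinite ν] {r : ℝ → ℝ} (hr : Measurable r)
    (h0 : ∀ y, 0 ≤ r y) (h1 : ∀ y, r y ≤ 1) :
    (ν.prod unif) (reg r) = ∫⁻ y, ENNReal.ofReal (r y) ∂ν := by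
  have h := prod_reg ν hr h0 h1 MeasurableSet.univ
  rwa [Set.preimage_univ, Set.inter_univ, setLIntegral_univ] at h

lemma bdd_int {ν : Measure ℝ} [IsFiniteMeasure ν] {r : ℝ → ℝ} (hr : Measurable r)
    (h0 : ∀ y, 0 ≤ r y) (h1 : ∀ y, r y ≤ 1) : Integrable r ν := by
  refine Integrable.of_bound hr.aestronglyMeasurable 1 (Filter.Eventually.of_forall fun y => ?_)
  rw [Real.norm_eq_abs, abs_of_nonneg (h0 y)]
  exact h1 y

/-- **`F(x) = 2x/(1+x)` is a disagreement bound.** -/
theorem FF_bound : IsDisagreementBound FF := by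
  classical
  refine ⟨fun x hx => FF_mem hx, ?_⟩
  intro ι hι μ hμ
  have := Fintype.ofFinite ι
  by_cases hne : Nonempty ι
  swap
  · rw [not_nonempty_iff] at hne
    exact ⟨PUnit, inferInstance, Measure.dirac PUnit.unit, fun i => hne.elim i, inferInstance,
      fun i => hne.elim i, fun i => hne.elim i, fun i => hne.elim i⟩
  set ν : Measure ℝ := ∑ i, μ i with hν
  have hνfin : IsFiniteMeasure ν := by rw [hν]; infer_instance
  have hνuniv : ν Set.univ = Fintype.card ι := by
    rw [hν, Measure.finsetSum_apply]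
    simp
  have hle : ∀ i, μ i ≤ ν := by
    intro i
    rw [Measure.le_iff]
    intro s _
    rw [hν, Measure.finsetSum_apply]
    exact Finset.single_le_sum (f := fun i => μ i s) (fun _ _ => zero_le) (Finset.mem_univ i)
  choose r hr hr0 hr1 hrA using fun i => dens (μ i) ν (hle i)
  set K : ENNReal := (Fintype.card ι : ENNReal) with hK
  have hK0 : K ≠ 0 := by
    rw [hK]
    exact_mod_cast Fintype.card_ne_zero
  have hKt : K ≠ ⊤ := ENNReal.natCast_ne_top _
  set ν' : Measure ℝ := K⁻¹ • ν with hν'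
  have hν'p : IsProbabilityMeasure ν' := ⟨by
    rw [hν', Measure.smul_apply, hνuniv, smul_eq_mul]
    exact ENNReal.inv_mul_cancel hK0 hKt⟩
  set Q : Measure (ℝ × ℝ) := ν'.prod unif with hQ
  have hQA : ∀ i A, MeasurableSet A → Q (reg (r i) ∩ Prod.fst ⁻¹' A) = K⁻¹ * μ i A := by
    intro i A hA
    rw [hQ, prod_reg ν' (hr i) (hr0 i) (hr1 i) hA, hν', Measure.restrict_smul,
      lintegral_smul_measure, hrA i A hA, smul_eq_mul]
  have hQi : ∀ i, Q (reg (r i)) = K⁻¹ := by
    intro i
    have := hQA i Set.univ MeasurableSet.univ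
    rw [Set.preimage_univ, Set.inter_univ, measure_univ, mul_one] at this
    exact this
  refine ⟨ℕ → ℝ × ℝ, inferInstance, Measure.infinitePi (fun _ : ℕ => Q),
    fun i => acc Prod.fst (reg (r i)), inferInstance, fun i => meas_acc measurable_fst
      (meas_reg (hr i)), ?_, ?_⟩
  · intro i
    ext A hA
    rw [law_acc Q measurable_fst (meas_reg (hr i)) (by
      rw [hQi]; exact ENNReal.inv_ne_zero.2 hKt) hA, hQA i A hA, hQi, inv_inv, ← mul_assoc,
      ENNReal.mul_inv_cancel hK0 hKt, one_mul]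
  · intro i j _
    refine (dis_acc Q Prod.fst (meas_reg (hr i)) (meas_reg (hr j))).trans ?_
    -- intersection and union
    have hmin : reg (r i) ∩ reg (r j) = reg (fun y => min (r i y) (r j y)) := by
      ext p
      simp only [reg, Set.mem_inter_iff, Set.mem_ofPred_eq, le_min_iff]
    have hmax : reg (r i) ∪ reg (r j) = reg (fun y => max (r i y) (r j y)) := by
      ext p
      simp only [reg, Set.mem_union, Set.mem_ofPred_eq, le_max_iff]
    have hreal : ∀ s : ℝ → ℝ, Measurable s → (∀ y, 0 ≤ s y) → (∀ y, s y ≤ 1) →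
        Q.real (reg s) = K.toReal⁻¹ * ∫ y, s y ∂ν := by
      intro s hs h0 h1
      rw [Measure.real, hQ, prod_reg' ν' hs h0 h1, hν', lintegral_smul_measure, smul_eq_mul,
        ENNReal.toReal_mul, ENNReal.toReal_inv,
        integral_eq_lintegral_of_nonneg_ae (Filter.Eventually.of_forall h0)
          hs.aestronglyMeasurable]
    have hmm : Measurable fun y => min (r i y) (r j y) := (hr i).min (hr j)
    have hMm : Measurable fun y => max (r i y) (r j y) := (hr i).max (hr j)
    have hm0 : ∀ y, 0 ≤ min (r i y) (r j y) := fun y => le_min (hr0 i y) (hr0 j y)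
    have hm1 : ∀ y, min (r i y) (r j y) ≤ 1 := fun y => (min_le_left _ _).trans (hr1 i y)
    have hM0 : ∀ y, 0 ≤ max (r i y) (r j y) := fun y => (hr0 i y).trans (le_max_left _ _)
    have hM1 : ∀ y, max (r i y) (r j y) ≤ 1 := fun y => max_le (hr1 i y) (hr1 j y)
    rw [hmin, hmax, hreal _ hmm hm0 hm1, hreal _ hMm hM0 hM1]
    set m : ℝ := ∫ y, min (r i y) (r j y) ∂ν with hm
    set M : ℝ := ∫ y, max (r i y) (r j y) ∂ν with hM
    have hint : ∀ i, Integrable (r i) ν := fun i => bdd_int (hr i) (hr0 i) (hr1 i)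
    have hintm : Integrable (fun y => min (r i y) (r j y)) ν := bdd_int hmm hm0 hm1
    have hintM : Integrable (fun y => max (r i y) (r j y)) ν := bdd_int hMm hM0 hM1
    have hsetr : ∀ i A, MeasurableSet A → (μ i).real A = ∫ y in A, r i y ∂ν := by
      intro i A hA
      rw [Measure.real, hrA i A hA,
        integral_eq_lintegral_of_nonneg_ae (Filter.Eventually.of_forall (hr0 i))
          (hr i).aestronglyMeasurable]
    have hone : ∀ i, ∫ y, r i y ∂ν = 1 := by
      intro i
      have := hsetr i Set.univ MeasurableSet.univ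
      rw [probReal_univ, setIntegral_univ] at this
      exact this.symm
    have hmM : m + M = 2 := by
      rw [hm, hM, ← integral_add hintm hintM]
      have : (fun y => min (r i y) (r j y) + max (r i y) (r j y)) = fun y => r i y + r j y := by
        funext y; exact min_add_max _ _
      rw [this, integral_add (hint i) (hint j), hone i, hone j]
      norm_num
    have hm00 : 0 ≤ m := integral_nonneg hm0
    have hmle : m ≤ 1 := by
      rw [← hone i]
      exact integral_mono hintm (hint i) fun y => min_le_left _ _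
    -- total variation
    have hd : 1 - m ≤ dTV (μ i) (μ j) := by
      have hA : MeasurableSet {y | r j y < r i y} := measurableSet_lt (hr j) (hr i)
      have h1 : (μ i).real {y | r j y < r i y} - (μ j).real {y | r j y < r i y} = 1 - m := by
        rw [hsetr i _ hA, hsetr j _ hA, ← integral_sub (hint i).integrableOn (hint j).integrableOn,
          ← hone i, hm, ← integral_sub (hint i) hintm, ← integral_indicator hA]
        congr 1
        funext y
        by_cases hy : r j y < r i y
        · rw [Set.indicator_of_mem (show y ∈ {y | r j y < r i y} from hy), min_eq_right hy.le]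
        · rw [Set.indicator_of_notMem (show y ∉ {y | r j y < r i y} from hy),
            min_eq_left (not_lt.1 hy), sub_self]
      rw [← h1]
      exact (le_abs_self _).trans (le_ciSup (dTV_bdd (μ i) (μ j)) ⟨_, hA⟩)
    refine le_trans (le_of_eq ?_) (FF_mono (by linarith) hd)
    have hKr : K.toReal ≠ 0 := by
      rw [ENNReal.toReal_ne_zero]; exact ⟨hK0, hKt⟩
    have hM' : M = 2 - m := by linarith
    rw [mul_div_mul_left _ _ (inv_ne_zero hKr), hM']
    unfold FF
    have : (2 - m) ≠ 0 := by linarith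
    rw [show 1 + (1 - m) = 2 - m by ring]
    field_simp
    ring

/-- a function that is at least `F` on `[0,1]` and maps `[0,1]` into itself is a disagreement
bound -/
theorem bound_of_le {f : ℝ → ℝ} (h1 : ∀ x ∈ Set.Icc (0 : ℝ) 1, f x ∈ Set.Icc (0 : ℝ) 1)
    (h2 : ∀ x ∈ Set.Icc (0 : ℝ) 1, FF x ≤ f x) : IsDisagreementBound f := by
  refine ⟨h1, ?_⟩
  intro ι hι μ hμ
  obtain ⟨Ω, mΩ, P, X, hP, hX, hlaw, hd⟩ := FF_bound.2 ι μ hμ
  refine ⟨Ω, mΩ, P, X, hP, hX, hlaw, fun i j hij => (hd i j hij).trans (h2 _ ?_)⟩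
  constructor
  · have := le_ciSup (dTV_bdd (μ i) (μ j)) ⟨∅, MeasurableSet.empty⟩
    simp only [measureReal_empty, sub_self, abs_zero] at this
    exact this
  · have : Nonempty {A : Set ℝ // MeasurableSet A} := ⟨⟨∅, MeasurableSet.empty⟩⟩
    refine ciSup_le fun A => ?_
    have h1 : (μ i).real A.1 ≤ 1 := measureReal_le_one
    have h2 : (μ j).real A.1 ≤ 1 := measureReal_le_one
    have h3 : 0 ≤ (μ i).real A.1 := measureReal_nonneg
    have h4 : 0 ≤ (μ j).real A.1 := measureReal_nonneg
    rw [abs_le]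
    constructor <;> linarith

end Pool.Agent.X144.DB
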