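import Pool.Agent.X144.DB.Def

set_option autoImplicit false

namespace Pool.Agent.X144.DB

open MeasureTheory Finset

lemma dTV_bdd (μ ν : Measure ℝ) [IsProbabilityMeasure μ] [IsProbabilityMeasure ν] :
    BddAbove (Set.range fun A : {A : Set ℝ // MeasurableSet A} => |μ.real A.1 - ν.real A.1|) := by
  refine ⟨1, ?_⟩
  rintro _ ⟨A, rfl⟩
  have h1 : μ.real A.1 ≤ 1 := measureReal_le_one
  have h2 : ν.real A.1 ≤ 1 := measureReal_le_one
  have h3 : 0 ≤ μ.real A.1 := measureReal_nonneg
  have h4 : 0 ≤ ν.real A.1 := measureReal_nonneg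
  rw [abs_le]
  constructor <;> linarith

lemma dTV_eq {μ ν : Measure ℝ} [IsProbabilityMeasure μ] [IsProbabilityMeasure ν] {x : ℝ}
    (hle : ∀ A, MeasurableSet A → |μ.real A - ν.real A| ≤ x)
    (hge : ∃ A, MeasurableSet A ∧ x ≤ |μ.real A - ν.real A|) : dTV μ ν = x := by
  have : Nonempty {A : Set ℝ // MeasurableSet A} := ⟨⟨∅, MeasurableSet.empty⟩⟩
  apply le_antisymm
  · exact ciSup_le fun A => hle A.1 A.2
  · obtain ⟨A, hA, h⟩ := hge
    exact h.trans (le_ciSup (dTV_bdd μ ν) ⟨A, hA⟩)

variable {N : ℕ}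

/-- private point of a set -/
noncomputable def priv (A : Finset (Fin N)) : ℝ := -1 - ((Fintype.equivFin (Finset (Fin N)) A : ℕ) : ℝ)

lemma priv_neg (A : Finset (Fin N)) : priv A < 0 := by
  unfold priv
  have : (0 : ℝ) ≤ ((Fintype.equivFin (Finset (Fin N)) A : ℕ) : ℝ) := Nat.cast_nonneg _
  linarith

lemma priv_inj {A B : Finset (Fin N)} (h : priv A = priv B) : A = B := by
  unfold priv at h
  have h1 : ((Fintype.equivFin (Finset (Fin N)) A : ℕ) : ℝ) =
      ((Fintype.equivFin (Finset (Fin N)) B : ℕ) : ℝ) := by linarith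
  have h2 : (Fintype.equivFin (Finset (Fin N)) A : ℕ) = Fintype.equivFin (Finset (Fin N)) B := by
    exact_mod_cast h1
  exact (Fintype.equivFin (Finset (Fin N))).injective (Fin.ext h2)

/-- the real number of an index -/
def pt (a : Fin N) : ℝ := ((a : ℕ) : ℝ)

lemma pt_nonneg (a : Fin N) : 0 ≤ pt a := Nat.cast_nonneg _

lemma pt_inj {a b : Fin N} (h : pt a = pt b) : a = b := by
  unfold pt at h
  have : (a : ℕ) = b := by exact_mod_cast h
  exact Fin.ext this

/-- the laws -/
noncomputable def law (k : ℕ) (m δ : ℝ) (A : Finset (Fin N)) : Measure ℝ :=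
  if A.card = k then
    ∑ a ∈ A, ENNReal.ofReal m • Measure.dirac (pt a) + ENNReal.ofReal δ • Measure.dirac (priv A)
  else Measure.dirac 0

variable {k : ℕ} {m δ : ℝ}

lemma law_apply (hm : 0 ≤ m) (hδ : 0 ≤ δ) {A : Finset (Fin N)} (hA : A.card = k) {E : Set ℝ}
    (hE : MeasurableSet E) : law k m δ A E =
      ENNReal.ofReal (∑ a ∈ A, m * E.indicator 1 (pt a) + δ * E.indicator 1 (priv A)) := by
  classical
  unfold law
  have hi : ∀ z : ℝ, 0 ≤ E.indicator (1 : ℝ → ℝ) z := fun z =>
    Set.indicator_nonneg (fun _ _ => zero_le_one) _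
  rw [if_pos hA, Measure.add_apply, Measure.finsetSum_apply, Measure.smul_apply,
    Measure.dirac_apply' _ hE, smul_eq_mul, ENNReal.ofReal_add (Finset.sum_nonneg fun a _ =>
      mul_nonneg hm (hi (pt a))) (mul_nonneg hδ (hi (priv A))),
    ENNReal.ofReal_sum_of_nonneg fun a _ => mul_nonneg hm (hi (pt a))]
  congr 1
  · refine Finset.sum_congr rfl fun a _ => ?_
    rw [Measure.smul_apply, Measure.dirac_apply' _ hE, smul_eq_mul, ENNReal.ofReal_mul hm]
    congr 1
    by_cases h : pt a ∈ E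
    · rw [Set.indicator_of_mem h, Set.indicator_of_mem h]; simp
    · rw [Set.indicator_of_notMem h, Set.indicator_of_notMem h]; simp
  · rw [ENNReal.ofReal_mul hδ]
    congr 1
    by_cases h : priv A ∈ E
    · rw [Set.indicator_of_mem h, Set.indicator_of_mem h]; simp
    · rw [Set.indicator_of_notMem h, Set.indicator_of_notMem h]; simp

lemma law_real (hm : 0 ≤ m) (hδ : 0 ≤ δ) {A : Finset (Fin N)} (hA : A.card = k) {E : Set ℝ}
    (hE : MeasurableSet E) : (law k m δ A).real E =
      ∑ a ∈ A, m * E.indicator 1 (pt a) + δ * E.indicator 1 (priv A) := by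
  rw [Measure.real, law_apply hm hδ hA hE, ENNReal.toReal_ofReal]
  exact add_nonneg (Finset.sum_nonneg fun a _ =>
      mul_nonneg hm (Set.indicator_nonneg (fun _ _ => zero_le_one) _))
      (mul_nonneg hδ (Set.indicator_nonneg (fun _ _ => zero_le_one) _))

lemma law_prob (hm : 0 ≤ m) (hδ : 0 ≤ δ) (hk : k * m + δ = 1) (A : Finset (Fin N)) :
    IsProbabilityMeasure (law k m δ A) := by
  by_cases hA : A.card = k
  · constructor
    rw [law_apply hm hδ hA MeasurableSet.univ]
    have : ∑ a ∈ A, m * (Set.univ : Set ℝ).indicator 1 (pt a) +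
        δ * (Set.univ : Set ℝ).indicator 1 (priv A) = 1 := by
      simp only [Set.indicator_univ, Pi.one_apply, mul_one, Finset.sum_const, nsmul_eq_mul, hA]
      exact hk
    rw [this, ENNReal.ofReal_one]
  · unfold law
    rw [if_neg hA]
    infer_instance

lemma law_dTV (hm : 0 ≤ m) (hδ : 0 ≤ δ) (hk : k * m + δ = 1) {A B : Finset (Fin N)}
    (hA : A.card = k) (hB : B.card = k) (hAB : A ≠ B) {J : ℕ} (hJ : (A ∩ B).card = J) :
    dTV (law k m δ A) (law k m δ B) = 1 - J * m := by
  classical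
  have := law_prob (N := N) hm hδ hk A
  have := law_prob (N := N) hm hδ hk B
  have hJk : J ≤ k := by rw [← hJ, ← hA]; exact Finset.card_le_card Finset.inter_subset_left
  have hi0 : ∀ (E : Set ℝ) (z : ℝ), 0 ≤ E.indicator (1 : ℝ → ℝ) z := fun E z =>
    Set.indicator_nonneg (fun _ _ => zero_le_one) _
  have hi1 : ∀ (E : Set ℝ) (z : ℝ), E.indicator (1 : ℝ → ℝ) z ≤ 1 := fun E z => by
    by_cases h : z ∈ E
    · rw [Set.indicator_of_mem h]; simp
    · rw [Set.indicator_of_notMem h]; norm_num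
  -- split of the sums
  have hsplit : ∀ (C D : Finset (Fin N)) (E : Set ℝ), C.card = k → (C ∩ D).card = J →
      ∑ a ∈ C, m * E.indicator (1 : ℝ → ℝ) (pt a) =
        ∑ a ∈ C ∩ D, m * E.indicator (1 : ℝ → ℝ) (pt a) +
          ∑ a ∈ C \ D, m * E.indicator (1 : ℝ → ℝ) (pt a) := by
    intro C D E _ _
    rw [← Finset.sum_union (Finset.disjoint_left.2 (by
      intro a h1 h2
      rw [Finset.mem_inter] at h1
      rw [Finset.mem_sdiff] at h2
      exact h2.2 h1.2))]
    congr 1
    ext a
    simp only [Finset.mem_union, Finset.mem_inter, Finset.mem_sdiff]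
    tauto
  have hcardd : ∀ (C D : Finset (Fin N)), C.card = k → (C ∩ D).card = J →
      (((C \ D).card : ℕ) : ℝ) = (k : ℝ) - J := by
    intro C D hC hCD
    have := Finset.card_sdiff_add_card_inter C D
    have h2 : (C \ D).card + J = k := by rw [← hCD, this, hC]
    have h3 : (((C \ D).card : ℕ) : ℝ) + J = k := by exact_mod_cast h2
    linarith
  have hbound : ∀ (C D : Finset (Fin N)) (E : Set ℝ), C.card = k → (C ∩ D).card = J →
      0 ≤ ∑ a ∈ C \ D, m * E.indicator (1 : ℝ → ℝ) (pt a) ∧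
      ∑ a ∈ C \ D, m * E.indicator (1 : ℝ → ℝ) (pt a) ≤ ((k : ℝ) - J) * m := by
    intro C D E hC hCD
    refine ⟨Finset.sum_nonneg fun a _ => mul_nonneg hm (hi0 _ _), ?_⟩
    calc ∑ a ∈ C \ D, m * E.indicator (1 : ℝ → ℝ) (pt a) ≤ ∑ a ∈ C \ D, m := by
          refine Finset.sum_le_sum fun a _ => ?_
          have := mul_le_mul_of_nonneg_left (hi1 E (pt a)) hm
          linarith
      _ = ((k : ℝ) - J) * m := by rw [Finset.sum_const, nsmul_eq_mul, hcardd C D hC hCD]
  have hJ' : (B ∩ A).card = J := by rw [Finset.inter_comm]; exact hJ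
  apply dTV_eq
  · intro E hE
    rw [law_real hm hδ hA hE, law_real hm hδ hB hE, hsplit A B E hA hJ, hsplit B A E hB hJ',
      Finset.inter_comm B A]
    obtain ⟨h1, h2⟩ := hbound A B E hA hJ
    obtain ⟨h3, h4⟩ := hbound B A E hB hJ'
    have h5 := mul_nonneg hδ (hi0 E (priv A))
    have h6 := mul_le_mul_of_nonneg_left (hi1 E (priv A)) hδ
    have h7 := mul_nonneg hδ (hi0 E (priv B))
    have h8 := mul_le_mul_of_nonneg_left (hi1 E (priv B)) hδ
    rw [abs_le]
    constructor <;> nlinarith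
  · refine ⟨(((A \ B).image pt : Finset ℝ) : Set ℝ) ∪ {priv A},
      (Finset.measurableSet _).union (measurableSet_singleton _), ?_⟩
    have hmE : MeasurableSet ((((A \ B).image pt : Finset ℝ) : Set ℝ) ∪ {priv A}) :=
      (Finset.measurableSet _).union (measurableSet_singleton _)
    rw [law_real hm hδ hA hmE, law_real hm hδ hB hmE]
    have e1 : ∀ a : Fin N, (pt a ∈ (((A \ B).image pt : Finset ℝ) : Set ℝ) ∪ {priv A}) ↔
        a ∈ A \ B := by
      intro a
      constructor
      · rintro (h | h)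
        · obtain ⟨b, hb, hab⟩ := Finset.mem_image.1 (Finset.mem_coe.1 h)
          rw [← pt_inj hab]; exact hb
        · exfalso
          rw [Set.mem_singleton_iff] at h
          have := priv_neg A
          have := pt_nonneg a
          linarith
      · intro h
        exact Or.inl (Finset.mem_coe.2 (Finset.mem_image_of_mem pt h))
    have e2 : ∑ a ∈ A, m * ((((A \ B).image pt : Finset ℝ) : Set ℝ) ∪ {priv A}).indicator
        (1 : ℝ → ℝ) (pt a) = ((k : ℝ) - J) * m := by
      rw [hsplit A B _ hA hJ, Finset.sum_eq_zero, zero_add, ← hcardd A B hA hJ,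
        Finset.sum_congr rfl (g := fun _ => m), Finset.sum_const, nsmul_eq_mul]
      · intro a ha
        rw [Set.indicator_of_mem ((e1 a).2 ha)]; simp
      · intro a ha
        rw [Set.indicator_of_notMem, mul_zero]
        rw [e1 a, Finset.mem_sdiff]
        rw [Finset.mem_inter] at ha
        exact fun h => h.2 ha.2
    have e3 : ∑ a ∈ B, m * ((((A \ B).image pt : Finset ℝ) : Set ℝ) ∪ {priv A}).indicator
        (1 : ℝ → ℝ) (pt a) = 0 := by
      refine Finset.sum_eq_zero fun a ha => ?_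
      rw [Set.indicator_of_notMem, mul_zero]
      rw [e1 a, Finset.mem_sdiff]
      exact fun h => h.2 ha
    have e4 : ((((A \ B).image pt : Finset ℝ) : Set ℝ) ∪ {priv A}).indicator
        (1 : ℝ → ℝ) (priv A) = 1 := by
      have hmem : priv A ∈ (((A \ B).image pt : Finset ℝ) : Set ℝ) ∪ {priv A} := Or.inr rfl
      rw [Set.indicator_of_mem hmem]; simp
    have e5 : ((((A \ B).image pt : Finset ℝ) : Set ℝ) ∪ {priv A}).indicator
        (1 : ℝ → ℝ) (priv B) = 0 := by
      rw [Set.indicator_of_notMem]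
      rintro (h | h)
      · obtain ⟨b, hb, hab⟩ := Finset.mem_image.1 (Finset.mem_coe.1 h)
        have := priv_neg B
        have := pt_nonneg b
        linarith
      · exact hAB (priv_inj h).symm
    rw [e2, e3, e4, e5]
    refine le_trans (le_of_eq ?_) (le_abs_self _)
    linarith

/-- almost surely the value is in the support -/
lemma law_support (hm : 0 ≤ m) (hδ : 0 ≤ δ) {A : Finset (Fin N)} (hA : A.card = k) :
    law k m δ A ((((A.image pt : Finset ℝ) : Set ℝ) ∪ {priv A})ᶜ) = 0 := by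
  classical
  have hmE : MeasurableSet ((((A.image pt : Finset ℝ) : Set ℝ) ∪ {priv A})ᶜ) :=
    ((Finset.measurableSet _).union (measurableSet_singleton _)).compl
  rw [law_apply hm hδ hA hmE]
  have e1 : ∑ a ∈ A, m * ((((A.image pt : Finset ℝ) : Set ℝ) ∪ {priv A})ᶜ).indicator
      (1 : ℝ → ℝ) (pt a) = 0 := by
    refine Finset.sum_eq_zero fun a ha => ?_
    rw [Set.indicator_of_notMem, mul_zero]
    intro h
    exact h (Or.inl (Finset.mem_coe.2 (Finset.mem_image_of_mem pt ha)))
  have e2 : ((((A.image pt : Finset ℝ) : Set ℝ) ∪ {priv A})ᶜ).indicator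
      (1 : ℝ → ℝ) (priv A) = 0 := by
    rw [Set.indicator_of_notMem]
    intro h
    exact h (Or.inr rfl)
  rw [e1, e2]
  simp

end Pool.Agent.X144.DB
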