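import Pool.Agent.X144.DB.Core

set_option autoImplicit false
set_option linter.unusedSectionVars false

namespace Pool.Agent.X144.DB

open Finset

variable {S : Type*} [Fintype S] [DecidableEq S] [Nonempty S]

lemma av_eq_pair {n : ℕ} {l m : Fin (n + 1)} (hlm : l ≠ m) :
    av (fun f : Fin (n + 1) → S => ind (f l = f m)) = 1 / Fintype.card S := by
  have h0 : (Fintype.card S : ℝ) ≠ 0 := by exact_mod_cast Fintype.card_ne_zero
  have h1 : (fun f : Fin (n + 1) → S => ind (f l = f m)) =
      fun f => ∑ a : S, ind (f l = a) * ind (f m = a) := by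
    funext f
    rw [Finset.sum_eq_single (f l)]
    · rw [ind_true rfl, one_mul]
      exact ind_congr ⟨fun h => h.symm, fun h => h.symm⟩
    · intro a _ ha
      rw [ind_false (fun h => ha h.symm), zero_mul]
    · intro h; exact absurd (Finset.mem_univ _) h
  have h2 : ∀ a : S, av (fun i : S => ind (i = a)) = 1 / Fintype.card S := by
    intro a
    unfold av
    congr 1
    rw [Finset.sum_eq_single a (fun b _ hb => ind_false hb)
      (fun h => absurd (Finset.mem_univ _) h), ind_true rfl]
  rw [h1, av_sum]
  have h3 : ∀ a : S, av (fun f : Fin (n + 1) → S => ind (f l = a) * ind (f m = a)) =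
      (1 / Fintype.card S) * (1 / Fintype.card S) := by
    intro a
    rw [av_two (fun i : S => ind (i = a)) (fun i : S => ind (i = a)) hlm, h2]
  rw [Finset.sum_congr rfl fun a _ => h3 a, Finset.sum_const, Finset.card_univ, nsmul_eq_mul]
  field_simp

lemma av_eq_pair' {I : Type*} [Fintype I] [DecidableEq I] {p q : I} (hpq : p ≠ q) :
    av (fun f : I → S => ind (f p = f q)) = 1 / Fintype.card S := by
  have hcard : 0 < Fintype.card I := Fintype.card_pos_iff.2 ⟨p⟩
  obtain ⟨n, hn⟩ : ∃ n, Fintype.card I = n + 1 := ⟨Fintype.card I - 1, by omega⟩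
  let e : I ≃ Fin (n + 1) := Fintype.equivFinOfCardEq hn
  have h1 := av_equiv (Equiv.arrowCongr e (Equiv.refl S))
    (fun f : Fin (n + 1) → S => ind (f (e p) = f (e q)))
  rw [av_eq_pair (S := S) (fun h => hpq (e.injective h))] at h1
  rw [← h1]
  congr 1
  funext f
  simp [Equiv.arrowCongr]

lemma av_not_inj {I : Type*} [Fintype I] [DecidableEq I] :
    av (fun f : I → S => ind (¬ Function.Injective f)) ≤
      (Fintype.card I : ℝ) ^ 2 / Fintype.card S := by
  have hN : (0 : ℝ) < Fintype.card S := by exact_mod_cast Fintype.card_pos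
  have h1 : ∀ f : I → S, ind (¬ Function.Injective f) ≤
      ∑ p : I, ∑ q : I, ind (p ≠ q) * ind (f p = f q) := by
    intro f
    by_cases hf : Function.Injective f
    · rw [ind_false (not_not.2 hf)]
      exact Finset.sum_nonneg fun p _ => Finset.sum_nonneg fun q _ =>
        mul_nonneg (ind_nonneg _) (ind_nonneg _)
    · rw [ind_true hf]
      unfold Function.Injective at hf
      push Not at hf
      obtain ⟨p, q, hfpq, hpq⟩ := hf
      calc (1 : ℝ) = ind (p ≠ q) * ind (f p = f q) := by rw [ind_true hpq, ind_true hfpq, one_mul]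
        _ ≤ ∑ q : I, ind (p ≠ q) * ind (f p = f q) :=
          Finset.single_le_sum (f := fun q => ind (p ≠ q) * ind (f p = f q))
            (fun _ _ => mul_nonneg (ind_nonneg _) (ind_nonneg _)) (Finset.mem_univ q)
        _ ≤ _ := Finset.single_le_sum (f := fun p => ∑ q : I, ind (p ≠ q) * ind (f p = f q))
            (fun _ _ => Finset.sum_nonneg fun q _ => mul_nonneg (ind_nonneg _) (ind_nonneg _))
            (Finset.mem_univ p)
  refine (av_mono h1).trans ?_
  rw [av_sum]
  have h2 : ∀ p : I, av (fun f : I → S => ∑ q : I, ind (p ≠ q) * ind (f p = f q)) ≤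
      (Fintype.card I : ℝ) * (1 / Fintype.card S) := by
    intro p
    rw [av_sum]
    have h3 : ∀ q : I, av (fun f : I → S => ind (p ≠ q) * ind (f p = f q)) ≤
        1 / Fintype.card S := by
      intro q
      rw [av_mul]
      by_cases hpq : p ≠ q
      · rw [ind_true hpq, one_mul, av_eq_pair' hpq]
      · rw [ind_false hpq, zero_mul]; positivity
    refine (Finset.sum_le_sum fun q _ => h3 q).trans (le_of_eq ?_)
    rw [Finset.sum_const, Finset.card_univ, nsmul_eq_mul]
  refine (Finset.sum_le_sum fun p _ => h2 p).trans (le_of_eq ?_)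
  rw [Finset.sum_const, Finset.card_univ, nsmul_eq_mul]
  ring

/-- all coordinates are different -/
def good {J r : ℕ} (s : Fin J → S) (y z : Fin r → S) : Prop :=
  Function.Injective (Sum.elim s (Sum.elim y z) : Fin J ⊕ (Fin r ⊕ Fin r) → S)

lemma av_good (J r : ℕ) : 1 - ((J : ℝ) + 2 * r) ^ 2 / Fintype.card S ≤
    av (fun s : Fin J → S => av (fun y : Fin r → S => av (fun z : Fin r → S =>
      ind (good s y z)))) := by
  have h1 : av (fun s : Fin J → S => av (fun y : Fin r → S => av (fun z : Fin r → S =>
      ind (good s y z)))) = av (fun f : Fin J ⊕ (Fin r ⊕ Fin r) → S =>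
        1 - ind (¬ Function.Injective f)) := by
    rw [← av_equiv (Equiv.sumArrowEquivProdArrow (Fin J) (Fin r ⊕ Fin r) S).symm, av_prod]
    congr 1
    funext s
    rw [← av_equiv (Equiv.sumArrowEquivProdArrow (Fin r) (Fin r) S).symm, av_prod]
    congr 1
    funext y
    congr 1
    funext z
    have e : (Equiv.sumArrowEquivProdArrow (Fin J) (Fin r ⊕ Fin r) S).symm
        (s, (Equiv.sumArrowEquivProdArrow (Fin r) (Fin r) S).symm (y, z)) =
        Sum.elim s (Sum.elim y z) := rfl
    rw [e]
    by_cases hg : good s y z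
    · have hg' : Function.Injective
          (Sum.elim s (Sum.elim y z) : Fin J ⊕ (Fin r ⊕ Fin r) → S) := hg
      rw [ind_true hg, ind_false (not_not.2 hg'), sub_zero]
    · have hg' : ¬ Function.Injective
          (Sum.elim s (Sum.elim y z) : Fin J ⊕ (Fin r ⊕ Fin r) → S) := hg
      rw [ind_false hg, ind_true hg', sub_self]
  rw [h1, av_sub, av_const]
  have h2 := av_not_inj (S := S) (I := Fin J ⊕ (Fin r ⊕ Fin r))
  have h3 : (Fintype.card (Fin J ⊕ (Fin r ⊕ Fin r)) : ℝ) = (J : ℝ) + 2 * r := by
    rw [Fintype.card_sum, Fintype.card_sum, Fintype.card_fin, Fintype.card_fin]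
    push_cast
    ring
  rw [h3] at h2
  linarith

/-- facts about good triples -/
lemma good_facts {J r : ℕ} {s : Fin J → S} {y z : Fin r → S} (h : good s y z) :
    (im s ∪ im y).card = J + r ∧ (im s ∪ im z).card = J + r ∧
    (im s ∪ im y) ∩ (im s ∪ im z) = im s ∧ (im s).card = J := by
  have hs : Function.Injective s := by
    intro a b hab
    have := @h (Sum.inl a) (Sum.inl b) hab
    exact Sum.inl.inj this
  have hy : Function.Injective y := by
    intro a b hab
    have := @h (Sum.inr (Sum.inl a)) (Sum.inr (Sum.inl b)) hab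
    exact Sum.inl.inj (Sum.inr.inj this)
  have hz : Function.Injective z := by
    intro a b hab
    have := @h (Sum.inr (Sum.inr a)) (Sum.inr (Sum.inr b)) hab
    exact Sum.inr.inj (Sum.inr.inj this)
  have hsy : Disjoint (im s) (im y) := by
    rw [Finset.disjoint_left]
    intro a ha hb
    simp only [im, Finset.mem_image, Finset.mem_univ, true_and] at ha hb
    obtain ⟨l, rfl⟩ := ha
    obtain ⟨l', hl'⟩ := hb
    have := @h (Sum.inl l) (Sum.inr (Sum.inl l')) hl'.symm
    exact absurd this (by simp)
  have hsz : Disjoint (im s) (im z) := by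
    rw [Finset.disjoint_left]
    intro a ha hb
    simp only [im, Finset.mem_image, Finset.mem_univ, true_and] at ha hb
    obtain ⟨l, rfl⟩ := ha
    obtain ⟨l', hl'⟩ := hb
    have := @h (Sum.inl l) (Sum.inr (Sum.inr l')) hl'.symm
    exact absurd this (by simp)
  have hyz : Disjoint (im y) (im z) := by
    rw [Finset.disjoint_left]
    intro a ha hb
    simp only [im, Finset.mem_image, Finset.mem_univ, true_and] at ha hb
    obtain ⟨l, rfl⟩ := ha
    obtain ⟨l', hl'⟩ := hb
    have := @h (Sum.inr (Sum.inl l)) (Sum.inr (Sum.inr l')) hl'.symm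
    exact absurd (Sum.inr.inj this) (by simp)
  have cs : (im s).card = J := by
    unfold im; rw [Finset.card_image_of_injective _ hs, Finset.card_univ, Fintype.card_fin]
  have cy : (im y).card = r := by
    unfold im; rw [Finset.card_image_of_injective _ hy, Finset.card_univ, Fintype.card_fin]
  have cz : (im z).card = r := by
    unfold im; rw [Finset.card_image_of_injective _ hz, Finset.card_univ, Fintype.card_fin]
  refine ⟨?_, ?_, ?_, cs⟩
  · rw [Finset.card_union_of_disjoint hsy, cs, cy]
  · rw [Finset.card_union_of_disjoint hsz, cs, cz]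
  · rw [← Finset.union_inter_distrib_left, Finset.disjoint_iff_inter_eq_empty.1 hyz,
      Finset.union_empty]

end Pool.Agent.X144.DB
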