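import Pool.Agent.X144.DB.Law
import Pool.Agent.X144.DB.Tup

set_option autoImplicit false
set_option linter.unusedSectionVars false

namespace Pool.Agent.X144.DB

open MeasureTheory Finset

section
variable {N : ℕ} {Ω : Type} (k : ℕ) (X : Finset (Fin N) → Ω → ℝ)

/-- the common value as a choice function -/
noncomputable def ch (ω : Ω) (A : Finset (Fin N)) : Option (Fin N) := by
  classical
  exact if h : A.card = k ∧ ∃ a ∈ A, X A ω = pt a then some h.2.choose else none

lemma ch_some (ω : Ω) (A : Finset (Fin N)) (a : Fin N) :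
    ch k X ω A = some a ↔ A.card = k ∧ a ∈ A ∧ X A ω = pt a := by
  classical
  unfold ch
  constructor
  · intro h
    split_ifs at h with h1
    have h2 := Option.some.inj h
    obtain ⟨h3, h4⟩ := h1.2.choose_spec
    rw [← h2]
    exact ⟨h1.1, h3, h4⟩
  · rintro ⟨h1, h2, h3⟩
    have h4 : A.card = k ∧ ∃ a ∈ A, X A ω = pt a := ⟨h1, a, h2, h3⟩
    rw [dif_pos h4]
    congr 1
    obtain ⟨h5, h6⟩ := h4.2.choose_spec
    apply pt_inj
    rw [← h6, h3]

end

section
variable {N : ℕ} [NeZero N] {Ω : Type} [MeasurableSpace Ω] (P : Measure Ω) [IsProbabilityMeasure P]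
  (X : Finset (Fin N) → Ω → ℝ) (hX : ∀ A, Measurable (X A))

lemma ind_eq_indicator {p : Ω → Prop} (ω : Ω) :
    ind (p ω) = ({ω | p ω} : Set Ω).indicator (fun _ => (1 : ℝ)) ω := by
  by_cases h : p ω
  · rw [ind_true h, Set.indicator_of_mem (show ω ∈ {ω | p ω} from h)]
  · rw [ind_false h, Set.indicator_of_notMem (show ω ∉ {ω | p ω} from h)]

include hX in
lemma meas_ch (k : ℕ) (A : Finset (Fin N)) (a : Fin N) :
    MeasurableSet {ω | ch k X ω A = some a} := by
  by_cases h : A.card = k ∧ a ∈ A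
  · have : {ω | ch k X ω A = some a} = X A ⁻¹' {pt a} := by
      ext ω
      rw [Set.mem_ofPred_eq, ch_some]
      simp only [Set.mem_preimage, Set.mem_singleton_iff]
      tauto
    rw [this]
    exact hX A (measurableSet_singleton _)
  · have : {ω | ch k X ω A = some a} = ∅ := by
      ext ω
      rw [Set.mem_ofPred_eq, ch_some]
      simp only [Set.mem_empty_iff_false, iff_false]
      tauto
    rw [this]
    exact MeasurableSet.empty

/-- the indicator of agreement at the `l`-th common element -/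
noncomputable def gg {J r : ℕ} (k : ℕ) (s : Fin J → Fin N) (y z : Fin r → Fin N) (ω : Ω) : ℝ :=
  ∑ l, ind (ch k X ω (im s ∪ im y) = some (s l)) * ind (ch k X ω (im s ∪ im z) = some (s l))

include hX in
lemma gg_int {J r : ℕ} (k : ℕ) (s : Fin J → Fin N) (y z : Fin r → Fin N) :
    Integrable (gg X k s y z) P := by
  unfold gg
  refine integrable_finsetSum _ fun l _ => ?_
  have h : (fun ω => ind (ch k X ω (im s ∪ im y) = some (s l)) *
      ind (ch k X ω (im s ∪ im z) = some (s l))) =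
      ({ω | ch k X ω (im s ∪ im y) = some (s l)} ∩
        {ω | ch k X ω (im s ∪ im z) = some (s l)}).indicator (fun _ => (1 : ℝ)) := by
    funext ω
    rw [ind_eq_indicator (p := fun ω => ch k X ω (im s ∪ im y) = some (s l)),
      ind_eq_indicator (p := fun ω => ch k X ω (im s ∪ im z) = some (s l)),
      ← Set.inter_indicator_mul (fun _ => (1 : ℝ)) (fun _ => (1 : ℝ))]
    simp
  rw [h]
  exact (integrable_const _).indicator ((meas_ch X hX k _ _).inter (meas_ch X hX k _ _))

lemma gg_nonneg {J r : ℕ} (k : ℕ) (s : Fin J → Fin N) (y z : Fin r → Fin N) (ω : Ω) :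
    0 ≤ gg X k s y z ω :=
  Finset.sum_nonneg fun _ _ => mul_nonneg (ind_nonneg _) (ind_nonneg _)

/-- the average of the agreement is controlled pointwise -/
lemma gg_av {j r : ℕ} (ω : Ω) :
    (2 * ((r : ℝ) + 1) + j) * av (fun s : Fin (j + 1) → Fin N => av (fun y : Fin r → Fin N =>
      av (fun z : Fin r → Fin N => gg X (j + (r + 1)) s y z ω))) ≤
      ((j : ℝ) + 1) * (1 + 3 / ((r : ℝ) + 1) + ((r : ℝ) + 1) / N) := by
  have h := core (S := Fin N) j r (ch (j + (r + 1)) X ω) (by
    intro A a h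
    rw [ch_some] at h
    exact ⟨h.2.1, h.1⟩)
  rw [Fintype.card_fin] at h
  refine le_trans (le_of_eq ?_) h
  congr 1
  rw [← av_sum]
  congr 1
  funext s
  unfold gg
  have e1 : (fun y : Fin r → Fin N => av (fun z : Fin r → Fin N =>
      ∑ l, ind (ch (j + (r + 1)) X ω (im s ∪ im y) = some (s l)) *
        ind (ch (j + (r + 1)) X ω (im s ∪ im z) = some (s l)))) =
      fun y => ∑ l, wt (r := r) (ch (j + (r + 1)) X ω) l s *
        ind (ch (j + (r + 1)) X ω (im s ∪ im y) = some (s l)) := by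
    funext y
    rw [av_sum]
    refine Finset.sum_congr rfl fun l _ => ?_
    rw [av_mul, mul_comm]
    rfl
  rw [e1, av_sum]
  refine Finset.sum_congr rfl fun l _ => ?_
  rw [av_mul, sq]
  rfl

lemma integral_av {α : Type} [Fintype α] (F : α → Ω → ℝ) (hF : ∀ a, Integrable (F a) P) :
    ∫ ω, av (fun a => F a ω) ∂P = av (fun a => ∫ ω, F a ω ∂P) := by
  unfold av
  rw [integral_div, integral_finsetSum _ fun a _ => hF a]

lemma integrable_av {α : Type} [Fintype α] (F : α → Ω → ℝ) (hF : ∀ a, Integrable (F a) P) :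
    Integrable (fun ω => av (fun a => F a ω)) P := by
  unfold av
  exact (integrable_finsetSum _ fun a _ => hF a).div_const _

include hX in
/-- the main inequality for the expectation of the agreement -/
lemma exp_av {j r : ℕ} :
    (2 * ((r : ℝ) + 1) + j) * av (fun s : Fin (j + 1) → Fin N => av (fun y : Fin r → Fin N =>
      av (fun z : Fin r → Fin N => ∫ ω, gg X (j + (r + 1)) s y z ω ∂P))) ≤
      ((j : ℝ) + 1) * (1 + 3 / ((r : ℝ) + 1) + ((r : ℝ) + 1) / N) := by
  have hi1 : ∀ (s : Fin (j + 1) → Fin N) (y z : Fin r → Fin N),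
      Integrable (fun ω => gg X (j + (r + 1)) s y z ω) P := fun s y z => gg_int P X hX _ s y z
  have hi2 : ∀ (s : Fin (j + 1) → Fin N) (y : Fin r → Fin N),
      Integrable (fun ω => av (fun z : Fin r → Fin N => gg X (j + (r + 1)) s y z ω)) P :=
    fun s y => integrable_av P _ (hi1 s y)
  have hi3 : ∀ (s : Fin (j + 1) → Fin N), Integrable (fun ω => av (fun y : Fin r → Fin N =>
      av (fun z : Fin r → Fin N => gg X (j + (r + 1)) s y z ω))) P :=
    fun s => integrable_av P _ (hi2 s)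
  have hi4 := integrable_av P _ hi3
  have e : av (fun s : Fin (j + 1) → Fin N => av (fun y : Fin r → Fin N =>
      av (fun z : Fin r → Fin N => ∫ ω, gg X (j + (r + 1)) s y z ω ∂P))) =
      ∫ ω, av (fun s : Fin (j + 1) → Fin N => av (fun y : Fin r → Fin N =>
      av (fun z : Fin r → Fin N => gg X (j + (r + 1)) s y z ω))) ∂P := by
    rw [integral_av P _ hi3]
    congr 1
    funext s
    rw [integral_av P _ (hi2 s)]
    congr 1
    funext y
    rw [integral_av P _ (hi1 s y)]
  rw [e, ← integral_const_mul]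
  calc ∫ ω, (2 * ((r : ℝ) + 1) + j) * av (fun s : Fin (j + 1) → Fin N =>
        av (fun y : Fin r → Fin N => av (fun z : Fin r → Fin N =>
          gg X (j + (r + 1)) s y z ω))) ∂P ≤
      ∫ _, ((j : ℝ) + 1) * (1 + 3 / ((r : ℝ) + 1) + ((r : ℝ) + 1) / N) ∂P :=
        integral_mono (hi4.const_mul _) (integrable_const _) fun ω => gg_av X ω
    _ = _ := by simp

end

section
variable {N : ℕ} [NeZero N] {Ω : Type} [MeasurableSpace Ω] (P : Measure Ω) [IsProbabilityMeasure P]
  (X : Finset (Fin N) → Ω → ℝ) (hX : ∀ A, Measurable (X A)) {m δ : ℝ} (hm : 0 ≤ m) (hδ : 0 ≤ δ)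
  {k : ℕ} (hlaw : ∀ A, P.map (X A) = law k m δ A)

include hX hm hδ hlaw in
lemma ae_support {A : Finset (Fin N)} (hA : A.card = k) :
    ∀ᵐ ω ∂P, (∃ a ∈ A, X A ω = pt a) ∨ X A ω = priv A := by
  have h := law_support (N := N) hm hδ hA
  have hmE : MeasurableSet ((((A.image pt : Finset ℝ) : Set ℝ) ∪ {priv A})ᶜ) :=
    ((Finset.measurableSet _).union (measurableSet_singleton _)).compl
  rw [← hlaw A, Measure.map_apply (hX A) hmE] at h
  rw [ae_iff]
  refine measure_mono_null ?_ h
  intro ω hω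
  rw [Set.mem_ofPred_eq] at hω
  rw [Set.mem_preimage, Set.mem_compl_iff]
  intro h'
  apply hω
  rcases h' with h' | h'
  · left
    obtain ⟨a, ha, hab⟩ := Finset.mem_image.1 (Finset.mem_coe.1 h')
    exact ⟨a, ha, hab.symm⟩
  · right; exact h'

include hX hm hδ hlaw in
lemma good_int {j r : ℕ} (hk : k = j + (r + 1)) (hr : 0 < r) {s : Fin (j + 1) → Fin N}
    {y z : Fin r → Fin N} (hg : good s y z) {q : ℝ}
    (hq : ∀ A B : Finset (Fin N), A.card = k → B.card = k → A ≠ B → (A ∩ B).card = j + 1 →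
      P.real {ω | X A ω ≠ X B ω} ≤ q) :
    1 - q ≤ ∫ ω, gg X (j + (r + 1)) s y z ω ∂P := by
  classical
  obtain ⟨c1, c2, c3, c4⟩ := good_facts hg
  have hA : (im s ∪ im y).card = k := by rw [c1, hk]; ring
  have hB : (im s ∪ im z).card = k := by rw [c2, hk]; ring
  have hAB : im s ∪ im y ≠ im s ∪ im z := by
    intro h
    rw [← h, Finset.inter_self] at c3
    rw [c3, c4] at c1
    omega
  have h1 := hq _ _ hA hB hAB (by rw [c3, c4])
  have hms : MeasurableSet {ω | X (im s ∪ im y) ω ≠ X (im s ∪ im z) ω} :=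
    (measurableSet_eq_fun (hX _) (hX _)).compl
  have h2 : 1 - q ≤ P.real {ω | X (im s ∪ im y) ω ≠ X (im s ∪ im z) ω}ᶜ := by
    rw [probReal_compl_eq_one_sub hms]
    linarith
  refine h2.trans ?_
  rw [← integral_indicator_one hms.compl]
  refine integral_mono_ae ((integrable_const _).indicator hms.compl)
    (gg_int P X hX _ s y z) ?_
  filter_upwards [ae_support P X hX hm hδ hlaw hA, ae_support P X hX hm hδ hlaw hB] with ω ha hb
  by_cases heq : X (im s ∪ im y) ω = X (im s ∪ im z) ω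
  · have hmem : ω ∈ {ω | X (im s ∪ im y) ω ≠ X (im s ∪ im z) ω}ᶜ := by
      intro h
      exact h heq
    rw [Set.indicator_of_mem hmem]
    -- the common value
    have hcommon : ∃ l, X (im s ∪ im y) ω = pt (s l) := by
      rcases ha with ⟨a, ha1, ha2⟩ | ha
      · rcases hb with ⟨b, hb1, hb2⟩ | hb
        · have hab : a = b := pt_inj (by rw [← ha2, ← hb2, heq])
          have h3 : a ∈ (im s ∪ im y) ∩ (im s ∪ im z) :=
            Finset.mem_inter.2 ⟨ha1, by rw [hab]; exact hb1⟩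
          rw [c3] at h3
          simp only [im, Finset.mem_image, Finset.mem_univ, true_and] at h3
          obtain ⟨l, hl⟩ := h3
          exact ⟨l, by rw [hl]; exact ha2⟩
        · exfalso
          rw [← heq, ha2] at hb
          have := priv_neg (im s ∪ im z)
          have := pt_nonneg a
          linarith
      · rcases hb with ⟨b, hb1, hb2⟩ | hb
        · exfalso
          rw [← heq, ha] at hb2
          have := priv_neg (im s ∪ im y)
          have := pt_nonneg b
          linarith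
        · exfalso
          rw [ha, hb] at heq
          exact hAB (priv_inj heq)
    obtain ⟨l, hl⟩ := hcommon
    have h4 : ch (j + (r + 1)) X ω (im s ∪ im y) = some (s l) := by
      rw [ch_some]
      exact ⟨by rw [hA, hk], Finset.mem_union_left _ (mem_im s l), hl⟩
    have h5 : ch (j + (r + 1)) X ω (im s ∪ im z) = some (s l) := by
      rw [ch_some]
      exact ⟨by rw [hB, hk], Finset.mem_union_left _ (mem_im s l), by rw [← heq]; exact hl⟩
    unfold gg
    calc (1 : Ω → ℝ) ω = ind (ch (j + (r + 1)) X ω (im s ∪ im y) = some (s l)) *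
          ind (ch (j + (r + 1)) X ω (im s ∪ im z) = some (s l)) := by
          rw [ind_true h4, ind_true h5, one_mul]; rfl
      _ ≤ _ := Finset.single_le_sum (f := fun l =>
          ind (ch (j + (r + 1)) X ω (im s ∪ im y) = some (s l)) *
          ind (ch (j + (r + 1)) X ω (im s ∪ im z) = some (s l)))
          (fun _ _ => mul_nonneg (ind_nonneg _) (ind_nonneg _)) (Finset.mem_univ l)
  · have hmem : ω ∉ {ω | X (im s ∪ im y) ω ≠ X (im s ∪ im z) ω}ᶜ := by
      intro h
      exact h heq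
    rw [Set.indicator_of_notMem hmem]
    exact gg_nonneg X _ s y z ω

end

/-- the inequality for finite `N` -/
lemma ineq_N {f : ℝ → ℝ} (hf : IsDisagreementBound f) {x m δ : ℝ} (hm : 0 ≤ m) (hδ : 0 ≤ δ)
    {j r : ℕ} (hr : 0 < r) (hk : ((j + (r + 1) : ℕ) : ℝ) * m + δ = 1)
    (hx : 1 - ((j + 1 : ℕ) : ℝ) * m = x) (hx0 : 0 ≤ x) (hx1 : x ≤ 1) {N : ℕ} (hN : 0 < N) :
    (2 * ((r : ℝ) + 1) + j) * ((1 - f x) * (1 - (((j + 1 : ℕ) : ℝ) + 2 * r) ^ 2 / N)) ≤
      ((j : ℝ) + 1) * (1 + 3 / ((r : ℝ) + 1) + ((r : ℝ) + 1) / N) := by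
  have : NeZero N := ⟨hN.ne'⟩
  obtain ⟨Ω, _, P, X, hP, hX, hlaw, hdis⟩ := hf.2 (Finset (Fin N))
    (fun A => law (j + (r + 1)) m δ A) (fun A => law_prob hm hδ hk A)
  have hq : ∀ A B : Finset (Fin N), A.card = j + (r + 1) → B.card = j + (r + 1) → A ≠ B →
      (A ∩ B).card = j + 1 → P.real {ω | X A ω ≠ X B ω} ≤ f x := by
    intro A B hA hB hAB hI
    have h1 := hdis A B hAB
    rw [law_dTV hm hδ hk hA hB hAB hI, hx] at h1
    exact h1
  have hfx := (hf.1 x ⟨hx0, hx1⟩).2
  have h1 : ∀ (s : Fin (j + 1) → Fin N) (y z : Fin r → Fin N),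
      (1 - f x) * ind (good s y z) ≤ ∫ ω, gg X (j + (r + 1)) s y z ω ∂P := by
    intro s y z
    by_cases hg : good s y z
    · rw [ind_true hg, mul_one]
      exact good_int P X hX hm hδ hlaw rfl hr hg hq
    · rw [ind_false hg, mul_zero]
      exact integral_nonneg fun ω => gg_nonneg X _ s y z ω
  refine le_trans ?_ (exp_av P X hX)
  refine mul_le_mul_of_nonneg_left ?_ (by positivity)
  calc (1 - f x) * (1 - (((j + 1 : ℕ) : ℝ) + 2 * r) ^ 2 / N) ≤
      (1 - f x) * av (fun s : Fin (j + 1) → Fin N => av (fun y : Fin r → Fin N =>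
        av (fun z : Fin r → Fin N => ind (good s y z)))) := by
        refine mul_le_mul_of_nonneg_left ?_ (by linarith)
        have := av_good (S := Fin N) (j + 1) r
        rwa [Fintype.card_fin] at this
    _ = av (fun s : Fin (j + 1) → Fin N => av (fun y : Fin r → Fin N =>
        av (fun z : Fin r → Fin N => (1 - f x) * ind (good s y z)))) := by
        rw [← av_mul]
        congr 1
        funext s
        rw [← av_mul]
        congr 1
        funext y
        rw [← av_mul]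
    _ ≤ _ := av_mono fun s => av_mono fun y => av_mono fun z => h1 s y z

/-- the inequality in the limit `N → ∞` -/
lemma ineq_lim {f : ℝ → ℝ} (hf : IsDisagreementBound f) {x m δ : ℝ} (hm : 0 ≤ m) (hδ : 0 ≤ δ)
    {j r : ℕ} (hr : 0 < r) (hk : ((j + (r + 1) : ℕ) : ℝ) * m + δ = 1)
    (hx : 1 - ((j + 1 : ℕ) : ℝ) * m = x) (hx0 : 0 ≤ x) (hx1 : x ≤ 1) :
    (2 * ((r : ℝ) + 1) + j) * (1 - f x) ≤ ((j : ℝ) + 1) * (1 + 3 / ((r : ℝ) + 1)) := by
  have h1 : Filter.Tendsto (fun N : ℕ => (2 * ((r : ℝ) + 1) + j) * ((1 - f x) *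
      (1 - (((j + 1 : ℕ) : ℝ) + 2 * r) ^ 2 / N))) Filter.atTop
      (nhds ((2 * ((r : ℝ) + 1) + j) * ((1 - f x) * (1 - 0)))) := by
    refine Filter.Tendsto.const_mul _ (Filter.Tendsto.const_mul _ (Filter.Tendsto.const_sub _ ?_))
    exact tendsto_const_div_atTop_nhds_zero_nat _
  have h2 : Filter.Tendsto (fun N : ℕ => ((j : ℝ) + 1) * (1 + 3 / ((r : ℝ) + 1) +
      ((r : ℝ) + 1) / N)) Filter.atTop (nhds (((j : ℝ) + 1) * (1 + 3 / ((r : ℝ) + 1) + 0))) := by
    refine Filter.Tendsto.const_mul _ (Filter.Tendsto.const_add _ ?_)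
    exact tendsto_const_div_atTop_nhds_zero_nat _
  have h3 := le_of_tendsto_of_tendsto h1 h2 (by
    filter_upwards [Filter.eventually_gt_atTop 0] with N hN
    exact ineq_N hf hm hδ hr hk hx hx0 hx1 hN)
  simpa using h3

/-- **Main theorem**: every disagreement bound is at least `2x/(1+x)`. -/
theorem lower_bound {f : ℝ → ℝ} (hf : IsDisagreementBound f) {x : ℝ} (hx0 : 0 < x) (hx1 : x < 1) :
    2 * x / (1 + x) ≤ f x := by
  have h1x : 0 < 1 - x := by linarith
  have h1x' : 0 < 1 + x := by linarith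
  set q : ℝ := (1 + x) / (1 - x) with hq
  set C : ℝ := 3 * (1 - x) / x with hC
  have hC0 : 0 ≤ C := by positivity
  have hfx := hf.1 x ⟨hx0.le, hx1.le⟩
  -- for every large `J`
  have key : ∀ J : ℕ, 1 ≤ J → 1 - x ≤ J * x → (1 - f x) * (J * q - 1) ≤ J + C := by
    intro J hJ hJx
    obtain ⟨j, rfl⟩ : ∃ j, J = j + 1 := ⟨J - 1, by omega⟩
    have hJ0 : (0 : ℝ) < ((j + 1 : ℕ) : ℝ) := by positivity
    set K : ℕ := ⌊((j + 1 : ℕ) : ℝ) / (1 - x)⌋₊ with hK
    have hK1 : (K : ℝ) ≤ ((j + 1 : ℕ) : ℝ) / (1 - x) := Nat.floor_le (by positivity)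
    have hK2 : ((j + 1 : ℕ) : ℝ) / (1 - x) < K + 1 := Nat.lt_floor_add_one _
    have hK3 : j + 1 + 1 ≤ K := by
      apply Nat.le_floor
      rw [le_div_iff₀ h1x]
      push_cast at hJx ⊢
      nlinarith
    obtain ⟨r, hr⟩ : ∃ r, K = j + (r + 1) := ⟨K - (j + 1), by omega⟩
    have hr0 : 0 < r := by omega
    have hKr : (K : ℝ) = j + (r + 1) := by rw [hr]; push_cast; ring
    set m : ℝ := (1 - x) / ((j + 1 : ℕ) : ℝ) with hm
    have hm0 : 0 ≤ m := by positivity
    have hKm : (K : ℝ) * m ≤ 1 := by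
      rw [hm, mul_div_assoc', div_le_one hJ0]
      rwa [le_div_iff₀ h1x] at hK1
    have h1 := ineq_lim hf (x := x) (m := m) (δ := 1 - K * m) hm0 (by linarith) (j := j) hr0
      (by rw [← hr]; ring) (by rw [hm]; field_simp; ring) hx0.le hx1.le
    have h2 : ((j + 1 : ℕ) : ℝ) * q - 1 ≤ 2 * ((r : ℝ) + 1) + j := by
      have e : ((j + 1 : ℕ) : ℝ) * q = 2 * (((j + 1 : ℕ) : ℝ) / (1 - x)) - ((j + 1 : ℕ) : ℝ) := by
        rw [hq]; field_simp; ring
      rw [e]
      push_cast at hK2 ⊢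
      linarith
    have h3 : ((j : ℝ) + 1) * (3 / ((r : ℝ) + 1)) ≤ C := by
      have h4 : ((j + 1 : ℕ) : ℝ) * x / (1 - x) ≤ (r : ℝ) + 1 := by
        have e : ((j + 1 : ℕ) : ℝ) * x / (1 - x) =
            ((j + 1 : ℕ) : ℝ) / (1 - x) - ((j + 1 : ℕ) : ℝ) := by
          field_simp; ring
        rw [e]
        push_cast at hK2 ⊢
        linarith
      rw [div_le_iff₀ h1x] at h4
      rw [hC, mul_div_assoc', div_le_div_iff₀ (by positivity) hx0]
      push_cast at h4
      nlinarith
    calc (1 - f x) * (((j + 1 : ℕ) : ℝ) * q - 1) ≤ (1 - f x) * (2 * ((r : ℝ) + 1) + j) :=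
          mul_le_mul_of_nonneg_left h2 (by linarith [hfx.2])
      _ ≤ ((j : ℝ) + 1) * (1 + 3 / ((r : ℝ) + 1)) := by linarith
      _ ≤ ((j + 1 : ℕ) : ℝ) + C := by push_cast; linarith
  -- conclusion
  have hfin : (1 - f x) * q ≤ 1 := by
    by_contra hcon
    rw [not_le] at hcon
    set ε : ℝ := (1 - f x) * q - 1 with hε
    have hε0 : 0 < ε := by linarith
    obtain ⟨J, hJ⟩ := exists_nat_gt (max ((C + 1) / ε) (max 1 ((1 - x) / x)))
    have hJ1 : (C + 1) / ε < J := lt_of_le_of_lt (le_max_left _ _) hJ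
    have hJ2 : (1 : ℝ) < J := lt_of_le_of_lt ((le_max_left _ _).trans (le_max_right _ _)) hJ
    have hJ3 : (1 - x) / x < J := lt_of_le_of_lt ((le_max_right _ _).trans (le_max_right _ _)) hJ
    have h1 := key J (by exact_mod_cast hJ2.le) (by
      rw [div_lt_iff₀ hx0] at hJ3
      exact hJ3.le)
    rw [div_lt_iff₀ hε0] at hJ1
    have h2 : (1 - f x) * (J * q - 1) = J * ε + J - (1 - f x) := by rw [hε]; ring
    rw [h2] at h1
    have := hfx.1
    linarith
  rw [hq, mul_div_assoc', div_le_one h1x] at hfin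
  rw [div_le_iff₀ h1x']
  linarith

end Pool.Agent.X144.DB
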