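import Pool.Agent.X144.DB.Av

set_option autoImplicit false

namespace Pool.Agent.X144.DB

open Finset

lemma pow_diff_le (r : ℕ) {a b : ℝ} (hb : 0 ≤ b) (hab : b ≤ a) :
    a ^ (r + 1) - b ^ (r + 1) ≤ ((r : ℝ) + 1) * (a - b) * a ^ r := by
  induction r with
  | zero => simp
  | succ r ih =>
    have ha : 0 ≤ a := hb.trans hab
    have h1 : a ^ (r + 1 + 1) - b ^ (r + 1 + 1) =
        a * (a ^ (r + 1) - b ^ (r + 1)) + (a - b) * b ^ (r + 1) := by ring
    rw [h1]
    have h2 := mul_le_mul_of_nonneg_left ih ha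
    have h3 : (a - b) * b ^ (r + 1) ≤ (a - b) * a ^ (r + 1) :=
      mul_le_mul_of_nonneg_left (pow_le_pow_left₀ hb hab _) (sub_nonneg.2 hab)
    push_cast
    calc a * (a ^ (r + 1) - b ^ (r + 1)) + (a - b) * b ^ (r + 1)
        ≤ a * (((r : ℝ) + 1) * (a - b) * a ^ r) + (a - b) * a ^ (r + 1) := add_le_add h2 h3
      _ = ((r : ℝ) + 1 + 1) * (a - b) * a ^ (r + 1) := by ring

lemma pow_one_sub_le (r : ℕ) {z : ℝ} (hz0 : 0 ≤ z) (hz1 : z ≤ 1) :
    z ^ r * (1 - z) ≤ 1 / ((r : ℝ) + 1) := by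
  rw [le_div_iff₀ (by positivity)]
  have h1 : (∑ l ∈ Finset.range (r + 1), z ^ l) * (1 - z) = 1 - z ^ (r + 1) := by
    have := geom_sum_mul z (r + 1)
    linarith
  have h2 : ((r : ℝ) + 1) * z ^ r ≤ ∑ l ∈ Finset.range (r + 1), z ^ l := by
    have : ∀ l ∈ Finset.range (r + 1), z ^ r ≤ z ^ l := fun l hl =>
      pow_le_pow_of_le_one hz0 hz1 (by rw [Finset.mem_range] at hl; omega)
    have h3 := Finset.sum_le_sum this
    rw [Finset.sum_const, Finset.card_range, nsmul_eq_mul] at h3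
    push_cast at h3
    linarith
  have h3 := mul_le_mul_of_nonneg_right h2 (sub_nonneg.2 hz1)
  have h4 : 0 ≤ z ^ (r + 1) := by positivity
  nlinarith

/-- Abel summation inequality -/
lemma abel (a b : ℕ → ℝ) (ha : Antitone a) (N : ℕ)
    (hb : ∀ s ≤ N, 0 ≤ ∑ q ∈ Finset.range s, b q) :
    ∀ s ≤ N, a s * ∑ q ∈ Finset.range s, b q ≤ ∑ q ∈ Finset.range s, a q * b q := by
  intro s
  induction s with
  | zero => intro _; simp
  | succ s ih =>
    intro hs
    have h1 := ih (by omega)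
    rw [Finset.sum_range_succ (fun q => a q * b q)]
    have h2 : a (s + 1) * ∑ q ∈ Finset.range (s + 1), b q ≤
        a s * ∑ q ∈ Finset.range (s + 1), b q :=
      mul_le_mul_of_nonneg_right (ha (Nat.le_succ s)) (hb _ hs)
    refine h2.trans ?_
    rw [Finset.sum_range_succ, mul_add]
    linarith

/-- the analytic part of the rank bound -/
lemma seq_bound (r N : ℕ) (hN : 0 < N) (a : ℕ → ℝ) (ha : Antitone a) (ha0 : ∀ q, 0 ≤ a q)
    (v : ℝ) (hv0 : 0 ≤ v) (hv1 : v ≤ 1)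
    (hm : ∀ s ≤ N, ((r : ℝ) + 1) / N * ∑ q ∈ Finset.range s, a q ≤
      min v (1 - (1 - (s : ℝ) / N) ^ (r + 1))) :
    ((r : ℝ) + 1) * ((∑ q ∈ Finset.range N, a q ^ 2) / N) ≤
      v - v ^ 2 / 2 + 1 / ((r : ℝ) + 1) + ((r : ℝ) + 1) / (2 * N) := by
  have hN0 : (0 : ℝ) < N := by exact_mod_cast hN
  have hr0 : (0 : ℝ) < (r : ℝ) + 1 := by positivity
  let y : ℕ → ℝ := fun s => (1 - (s : ℝ) / N) ^ (r + 1)
  let m : ℕ → ℝ := fun s => min v (1 - y s)
  let μ : ℕ → ℝ := fun q => m (q + 1) - m q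
  have hm' : ∀ s ≤ N, ((r : ℝ) + 1) / N * ∑ q ∈ Finset.range s, a q ≤ m s := hm
  have hm0 : m 0 = 0 := by
    show min v (1 - (1 - ((0 : ℕ) : ℝ) / N) ^ (r + 1)) = 0
    simp [hv0]
  have hmN : m N = v := by
    show min v (1 - (1 - (N : ℝ) / N) ^ (r + 1)) = v
    rw [div_self hN0.ne', sub_self, zero_pow (Nat.succ_ne_zero r), sub_zero]
    exact min_eq_left hv1
  have htel : ∀ s, ∑ q ∈ Finset.range s, μ q = m s := by
    intro s
    rw [Finset.sum_range_sub m s, hm0, sub_zero]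
  have hz : ∀ q < N, 0 ≤ 1 - ((q : ℝ) + 1) / N ∧ 1 - ((q : ℝ) + 1) / N ≤ 1 - (q : ℝ) / N ∧
      1 - (q : ℝ) / N ≤ 1 ∧ (1 - (q : ℝ) / N) - (1 - ((q : ℝ) + 1) / N) = 1 / N := by
    intro q hq
    have h1 : (q : ℝ) + 1 ≤ N := by exact_mod_cast hq
    have h2 : ((q : ℝ) + 1) / N ≤ 1 := (div_le_one hN0).2 h1
    have h3 : (q : ℝ) / N ≤ ((q : ℝ) + 1) / N := by gcongr; linarith
    have h4 : 0 ≤ (q : ℝ) / N := by positivity
    refine ⟨by linarith, by linarith, by linarith, ?_⟩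
    field_simp
    ring
  have hyy : ∀ q < N, y (q + 1) ≤ y q ∧
      y q - y (q + 1) ≤ ((r : ℝ) + 1) / N * (1 - (q : ℝ) / N) ^ r := by
    intro q hq
    obtain ⟨h1, h2, h3, h4⟩ := hz q hq
    have e1 : y (q + 1) = (1 - ((q : ℝ) + 1) / N) ^ (r + 1) := by
      show (1 - ((q + 1 : ℕ) : ℝ) / N) ^ (r + 1) = _
      push_cast; rfl
    rw [e1]
    refine ⟨pow_le_pow_left₀ h1 h2 _, ?_⟩
    have h5 := pow_diff_le r h1 h2
    rw [h4] at h5
    refine h5.trans (le_of_eq ?_)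
    ring
  have hμ0 : ∀ q < N, 0 ≤ μ q := by
    intro q hq
    have := (hyy q hq).1
    show 0 ≤ min v (1 - y (q + 1)) - min v (1 - y q)
    have : min v (1 - y q) ≤ min v (1 - y (q + 1)) := min_le_min_left _ (by linarith)
    linarith
  have hμ1 : ∀ q < N, μ q ≤ y q - y (q + 1) := by
    intro q hq
    have h1 := (hyy q hq).1
    show min v (1 - y (q + 1)) - min v (1 - y q) ≤ _
    rcases min_cases v (1 - y (q + 1)) with ⟨h2, h3⟩ | ⟨h2, h3⟩ <;>
      rcases min_cases v (1 - y q) with ⟨h4, h5⟩ | ⟨h4, h5⟩ <;> rw [h2, h4] <;> linarith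
  have hμφ : ∀ q < N, μ q ≤ ((r : ℝ) + 1) / N * (1 - (q : ℝ) / N) ^ r :=
    fun q hq => (hμ1 q hq).trans (hyy q hq).2
  have hφ1 : ∀ q < N, (1 - (q : ℝ) / N) ^ r ≤ 1 := by
    intro q hq
    obtain ⟨h1, h2, h3, h4⟩ := hz q hq
    exact pow_le_one₀ (by linarith) h3
  have hμr : ∀ q < N, μ q ≤ ((r : ℝ) + 1) / N := by
    intro q hq
    refine (hμφ q hq).trans ?_
    have := mul_le_mul_of_nonneg_left (hφ1 q hq) (show 0 ≤ ((r : ℝ) + 1) / N by positivity)
    linarith
  -- step 1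
  set A := ∑ q ∈ Finset.range N, a q ^ 2 with hA
  set B := ∑ q ∈ Finset.range N, a q * μ q with hB
  set M := ∑ q ∈ Finset.range N, μ q ^ 2 with hM
  have h1 : A ≤ N / ((r : ℝ) + 1) * B := by
    have h := abel a (fun q => N / ((r : ℝ) + 1) * μ q - a q) ha N (by
      intro s hs
      rw [Finset.sum_sub_distrib, ← Finset.mul_sum, htel]
      have := hm' s hs
      rw [div_mul_eq_mul_div, div_le_iff₀ hN0] at this
      rw [sub_nonneg, div_mul_eq_mul_div, le_div_iff₀ hr0]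
      linarith) N le_rfl
    have h2 : 0 ≤ a N * ∑ q ∈ Finset.range N, (N / ((r : ℝ) + 1) * μ q - a q) := by
      apply mul_nonneg (ha0 N)
      rw [Finset.sum_sub_distrib, ← Finset.mul_sum, htel]
      have := hm' N le_rfl
      rw [div_mul_eq_mul_div, div_le_iff₀ hN0] at this
      rw [sub_nonneg, div_mul_eq_mul_div, le_div_iff₀ hr0]
      linarith
    have h3 : ∑ q ∈ Finset.range N, a q * (N / ((r : ℝ) + 1) * μ q - a q) =
        N / ((r : ℝ) + 1) * B - A := by
      rw [hB, hA, Finset.mul_sum, ← Finset.sum_sub_distrib]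
      apply Finset.sum_congr rfl
      intro q _
      ring
    linarith
  have hCS : B ^ 2 ≤ A * M := Finset.sum_mul_sq_le_sq_mul_sq _ _ _
  have hA0 : 0 ≤ A := Finset.sum_nonneg fun q _ => sq_nonneg _
  have hM0 : 0 ≤ M := Finset.sum_nonneg fun q _ => sq_nonneg _
  have hB0 : 0 ≤ B := Finset.sum_nonneg fun q hq =>
    mul_nonneg (ha0 q) (hμ0 q (Finset.mem_range.1 hq))
  have h2 : A ≤ (N / ((r : ℝ) + 1)) ^ 2 * M := by
    rcases eq_or_lt_of_le hA0 with h | h
    · rw [← h]; positivity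
    · have h3 : A ^ 2 ≤ (N / ((r : ℝ) + 1)) ^ 2 * B ^ 2 := by
        rw [← mul_pow]
        exact pow_le_pow_left₀ hA0 h1 2
      have h4 : A * A ≤ A * ((N / ((r : ℝ) + 1)) ^ 2 * M) := by
        have := mul_le_mul_of_nonneg_left hCS (sq_nonneg (N / ((r : ℝ) + 1)))
        nlinarith
      exact le_of_mul_le_mul_left h4 h
  have h3 : N / ((r : ℝ) + 1) * M ≤ ∑ q ∈ Finset.range N, (1 - (q : ℝ) / N) ^ r * μ q := by
    rw [hM, Finset.mul_sum]
    apply Finset.sum_le_sum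
    intro q hq
    have hq' := Finset.mem_range.1 hq
    have h4 := mul_le_mul_of_nonneg_right (hμφ q hq') (hμ0 q hq')
    calc N / ((r : ℝ) + 1) * μ q ^ 2 = N / ((r : ℝ) + 1) * (μ q * μ q) := by ring
      _ ≤ N / ((r : ℝ) + 1) * (((r : ℝ) + 1) / N * (1 - (q : ℝ) / N) ^ r * μ q) :=
          mul_le_mul_of_nonneg_left h4 (by positivity)
      _ = (1 - (q : ℝ) / N) ^ r * μ q := by field_simp
  have h4 : ∑ q ∈ Finset.range N, (1 - (q : ℝ) / N) ^ r * μ q ≤
      ∑ q ∈ Finset.range N, (y q + 1 / ((r : ℝ) + 1)) * μ q := by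
    apply Finset.sum_le_sum
    intro q hq
    have hq' := Finset.mem_range.1 hq
    apply mul_le_mul_of_nonneg_right _ (hμ0 q hq')
    obtain ⟨g1, g2, g3, g4⟩ := hz q hq'
    have := pow_one_sub_le r (show 0 ≤ 1 - (q : ℝ) / N by linarith) g3
    show _ ≤ (1 - (q : ℝ) / N) ^ (r + 1) + _
    rw [pow_succ]
    linarith
  have h5 : ∑ q ∈ Finset.range N, y q * μ q ≤ v - v ^ 2 / 2 + ((r : ℝ) + 1) / (2 * N) := by
    have h6 : ∀ q ∈ Finset.range N, y q * μ q ≤ μ q - (m (q + 1) ^ 2 - m q ^ 2) / 2 +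
        ((r : ℝ) + 1) / (2 * N) * μ q := by
      intro q hq
      have hq' := Finset.mem_range.1 hq
      have g1 : y q ≤ 1 - m q := by
        have : m q ≤ 1 - y q := min_le_right _ _
        linarith
      have g2 := hμ0 q hq'
      have g3 := hμr q hq'
      have g4 := mul_le_mul_of_nonneg_right g1 g2
      have g5 : μ q * μ q ≤ ((r : ℝ) + 1) / N * μ q := mul_le_mul_of_nonneg_right g3 g2
      have g6 : ((r : ℝ) + 1) / (2 * N) * μ q = (((r : ℝ) + 1) / N * μ q) / 2 := by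
        field_simp
      have g7 : (m (q + 1) ^ 2 - m q ^ 2) / 2 = m q * μ q + μ q * μ q / 2 := by
        show (m (q + 1) ^ 2 - m q ^ 2) / 2 = m q * (m (q + 1) - m q) +
          (m (q + 1) - m q) * (m (q + 1) - m q) / 2
        ring
      rw [g6, g7]
      linarith
    refine (Finset.sum_le_sum h6).trans ?_
    rw [Finset.sum_add_distrib, Finset.sum_sub_distrib, htel, ← Finset.sum_div,
      Finset.sum_range_sub (fun q => m q ^ 2) N, ← Finset.mul_sum, htel, hm0, hmN]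
    have g8 : ((r : ℝ) + 1) / (2 * N) * v ≤ ((r : ℝ) + 1) / (2 * N) * 1 :=
      mul_le_mul_of_nonneg_left hv1 (by positivity)
    linarith
  have h6 : ∑ q ∈ Finset.range N, (y q + 1 / ((r : ℝ) + 1)) * μ q =
      ∑ q ∈ Finset.range N, y q * μ q + 1 / ((r : ℝ) + 1) * v := by
    rw [← hmN, ← htel N, Finset.mul_sum, ← Finset.sum_add_distrib]
    apply Finset.sum_congr rfl
    intro q _
    ring
  have h7 : 1 / ((r : ℝ) + 1) * v ≤ 1 / ((r : ℝ) + 1) * 1 :=
    mul_le_mul_of_nonneg_left hv1 (by positivity)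
  have h8 : ((r : ℝ) + 1) * (A / N) ≤ N / ((r : ℝ) + 1) * M := by
    have := mul_le_mul_of_nonneg_left h2 (show 0 ≤ ((r : ℝ) + 1) / N by positivity)
    calc ((r : ℝ) + 1) * (A / N) = ((r : ℝ) + 1) / N * A := by ring
      _ ≤ ((r : ℝ) + 1) / N * ((N / ((r : ℝ) + 1)) ^ 2 * M) := this
      _ = N / ((r : ℝ) + 1) * M := by field_simp
  linarith

/-- rank bound on a finite type -/
lemma rank_bound {S : Type*} [Fintype S] [Nonempty S] (r : ℕ) (W : S → ℝ) (hW0 : ∀ i, 0 ≤ W i)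
    (v : ℝ) (hv0 : 0 ≤ v) (hv1 : v ≤ 1)
    (hm : ∀ D : Finset S, ((r : ℝ) + 1) / Fintype.card S * ∑ i ∈ D, W i ≤
      min v (1 - (1 - (D.card : ℝ) / Fintype.card S) ^ (r + 1))) :
    ((r : ℝ) + 1) * av (fun i => W i ^ 2) ≤
      v - v ^ 2 / 2 + 1 / ((r : ℝ) + 1) + ((r : ℝ) + 1) / (2 * Fintype.card S) := by
  classical
  set N := Fintype.card S with hN
  have hNpos : 0 < N := Fintype.card_pos
  let e : Fin N ≃ S := (Fintype.equivFin S).symm
  let σ : Equiv.Perm (Fin N) := Tuple.sort (fun q => - W (e q))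
  have hmono : Monotone ((fun q => - W (e q)) ∘ σ) := Tuple.monotone_sort _
  let a : ℕ → ℝ := fun q => if h : q < N then W (e (σ ⟨q, h⟩)) else 0
  have ha0 : ∀ q, 0 ≤ a q := by
    intro q
    show 0 ≤ if h : q < N then W (e (σ ⟨q, h⟩)) else 0
    split_ifs
    · exact hW0 _
    · exact le_rfl
  have ha : Antitone a := by
    intro q q' hqq
    show (if h : q' < N then W (e (σ ⟨q', h⟩)) else 0) ≤ (if h : q < N then W (e (σ ⟨q, h⟩)) else 0)
    by_cases h' : q' < N
    · have h : q < N := lt_of_le_of_lt hqq h'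
      rw [dif_pos h', dif_pos h]
      have := hmono (show (⟨q, h⟩ : Fin N) ≤ ⟨q', h'⟩ from hqq)
      simp only [Function.comp] at this
      linarith
    · rw [dif_neg h']
      exact ha0 q
  have hpart : ∀ s ≤ N, ∀ φ : ℝ → ℝ, ∑ q ∈ Finset.range s, φ (a q) =
      ∑ i ∈ (Finset.univ.filter fun q : Fin N => q.val < s).image (fun q => e (σ q)), φ (W i) := by
    intro s hs φ
    rw [Finset.sum_image (by
      intro q _ q' _ h
      exact σ.injective (e.injective h))]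
    symm
    refine Finset.sum_bij (fun (q : Fin N) _ => q.val) ?_ ?_ ?_ ?_
    · intro q hq
      rw [Finset.mem_filter] at hq
      exact Finset.mem_range.2 hq.2
    · intro q _ q' _ h
      exact Fin.ext h
    · intro q hq
      have hq' := Finset.mem_range.1 hq
      exact ⟨⟨q, lt_of_lt_of_le hq' hs⟩, by rw [Finset.mem_filter]; exact ⟨Finset.mem_univ _, hq'⟩,
        rfl⟩
    · intro q hq
      show φ (W (e (σ q))) = φ (if h : q.val < N then W (e (σ ⟨q.val, h⟩)) else 0)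
      rw [dif_pos q.isLt]
  have hcard : ∀ s ≤ N, ((Finset.univ.filter fun q : Fin N => q.val < s).image
      (fun q => e (σ q))).card = s := by
    intro s hs
    have hinj : Function.Injective (fun q : Fin N => e (σ q)) := e.injective.comp σ.injective
    rw [Finset.card_image_of_injective _ hinj, Fin.card_filter_val_lt]
    exact min_eq_right hs
  have key := seq_bound r N hNpos a ha ha0 v hv0 hv1 (by
    intro s hs
    have h1 := hm ((Finset.univ.filter fun q : Fin N => q.val < s).image (fun q => e (σ q)))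
    rw [hcard s hs] at h1
    have h2 := hpart s hs id
    simp only [id] at h2
    rw [h2]
    exact h1)
  have h3 := hpart N le_rfl (fun t => t ^ 2)
  have h4 : (Finset.univ.filter fun q : Fin N => q.val < N).image (fun q => e (σ q)) =
      Finset.univ := by
    apply Finset.eq_univ_of_card
    rw [hcard N le_rfl]
  rw [h4] at h3
  rw [h3] at key
  exact key

end Pool.Agent.X144.DB
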