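import Pool.Agent.X144.DB.Law

/-!
# Rejection sampling coupling
-/

set_option autoImplicit false
set_option linter.unusedSectionVars false

namespace Pool.Agent.X144.DB

open MeasureTheory

section
variable {E : Type} [MeasurableSpace E] (Q : Measure E) [IsProbabilityMeasure Q]

/-- the first `n` entries are in `B`, the next one is in `C` -/
def ev (B C : Set E) (n : ℕ) : Set (ℕ → E) := {ω | (∀ m < n, ω m ∈ B) ∧ ω n ∈ C}

lemma ev_eq (B C : Set E) (n : ℕ) : ev B C n =
    Set.pi (Finset.range (n + 1) : Set ℕ) (fun m => if m < n then B else C) := by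
  ext ω
  simp only [ev, Set.mem_ofPred_eq, Set.mem_pi, Finset.coe_range, Set.mem_Iio]
  constructor
  · rintro ⟨h1, h2⟩ m hm
    by_cases h : m < n
    · rw [if_pos h]; exact h1 m h
    · rw [if_neg h]
      have : m = n := by omega
      rw [this]; exact h2
  · intro h
    refine ⟨fun m hm => ?_, ?_⟩
    · have := h m (by omega)
      rwa [if_pos hm] at this
    · have := h n (by omega)
      rwa [if_neg (lt_irrefl n)] at this

lemma meas_ev {B C : Set E} (hB : MeasurableSet B) (hC : MeasurableSet C) (n : ℕ) :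
    MeasurableSet (ev B C n) := by
  rw [ev_eq]
  refine MeasurableSet.pi (Finset.countable_toSet _) fun m _ => ?_
  split_ifs
  · exact hB
  · exact hC

lemma PP_ev {B C : Set E} (hB : MeasurableSet B) (hC : MeasurableSet C) (n : ℕ) :
    Measure.infinitePi (fun _ : ℕ => Q) (ev B C n) = Q B ^ n * Q C := by
  rw [ev_eq, Measure.infinitePi_pi _ (fun m _ => by split_ifs <;> assumption),
    Finset.prod_range_succ, if_neg (lt_irrefl n)]
  congr 1
  rw [Finset.prod_congr rfl (g := fun _ => Q B), Finset.prod_const, Finset.card_range]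
  intro m hm
  rw [if_pos (Finset.mem_range.1 hm)]

lemma PP_union {D C : Set E} (hD : MeasurableSet D) (hC : MeasurableSet C) (hCD : C ⊆ D) :
    Measure.infinitePi (fun _ : ℕ => Q) (⋃ n, ev Dᶜ C n) = (Q D)⁻¹ * Q C := by
  rw [measure_iUnion _ fun n => meas_ev hD.compl hC n]
  · simp only [PP_ev Q hD.compl hC]
    rw [ENNReal.tsum_mul_right, ENNReal.tsum_geometric, prob_compl_eq_one_sub hD]
    congr 2
    exact ENNReal.sub_sub_cancel ENNReal.one_ne_top prob_le_one
  · intro n n' hnn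
    rw [Function.onFun, Set.disjoint_left]
    intro ω h1 h2
    rcases lt_or_gt_of_ne hnn with h | h
    · exact h2.1 n h (hCD h1.2)
    · exact h1.1 n' h (hCD h2.2)

/-- first acceptance time -/
noncomputable def tau (D : Set E) (ω : ℕ → E) : ℕ := sInf {n | ω n ∈ D}

lemma tau_of_ev {D C : Set E} (hCD : C ⊆ D) {n : ℕ} {ω : ℕ → E} (h : ω ∈ ev Dᶜ C n) :
    tau D ω = n := by
  unfold tau
  have h1 : n ∈ {n | ω n ∈ D} := hCD h.2
  apply le_antisymm
  · exact Nat.sInf_le h1
  · by_contra hlt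
    rw [not_le] at hlt
    have h2 : sInf {n | ω n ∈ D} ∈ {n | ω n ∈ D} := Nat.sInf_mem ⟨n, h1⟩
    exact h.1 _ hlt h2

/-- the accepted value -/
noncomputable def acc (Y : E → ℝ) (D : Set E) (ω : ℕ → E) : ℝ := Y (ω (tau D ω))

lemma exists_ev {D : Set E} {ω : ℕ → E} (h : ∃ n, ω n ∈ D) : ω ∈ ⋃ n, ev Dᶜ D n := by
  classical
  rw [Set.mem_iUnion]
  refine ⟨Nat.find h, ?_, Nat.find_spec h⟩
  intro m hm
  exact Nat.find_min h hm

lemma preim (Y : E → ℝ) (D : Set E) (A : Set ℝ) : acc Y D ⁻¹' A =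
    (⋃ n, ev Dᶜ (D ∩ Y ⁻¹' A) n) ∪ ((⋃ n, ev Dᶜ D n)ᶜ ∩ {ω | Y (ω 0) ∈ A}) := by
  ext ω
  constructor
  · intro h
    by_cases hex : ∃ n, ω n ∈ D
    · left
      have h1 := exists_ev hex
      rw [Set.mem_iUnion] at h1 ⊢
      obtain ⟨n, hn⟩ := h1
      refine ⟨n, hn.1, hn.2, ?_⟩
      have h2 := tau_of_ev subset_rfl hn
      rw [Set.mem_preimage, acc, h2] at h
      exact h
    · right
      refine ⟨?_, ?_⟩
      · intro h1
        rw [Set.mem_iUnion] at h1
        obtain ⟨n, hn⟩ := h1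
        exact hex ⟨n, hn.2⟩
      · have h2 : tau D ω = 0 := by
          unfold tau
          have : {n | ω n ∈ D} = ∅ := by
            ext n
            simp only [Set.mem_ofPred_eq, Set.mem_empty_iff_false, iff_false]
            exact fun hn => hex ⟨n, hn⟩
          rw [this, Nat.sInf_empty]
        rw [Set.mem_preimage, acc, h2] at h
        exact h
  · rintro (h | ⟨h, h'⟩)
    · rw [Set.mem_iUnion] at h
      obtain ⟨n, hn⟩ := h
      have h2 := tau_of_ev Set.inter_subset_left hn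
      rw [Set.mem_preimage, acc, h2]
      exact hn.2.2
    · have h2 : tau D ω = 0 := by
        unfold tau
        have : {n | ω n ∈ D} = ∅ := by
          ext n
          simp only [Set.mem_ofPred_eq, Set.mem_empty_iff_false, iff_false]
          exact fun hn => h (exists_ev ⟨n, hn⟩)
        rw [this, Nat.sInf_empty]
      rw [Set.mem_preimage, acc, h2]
      exact h'

variable {Y : E → ℝ} (hY : Measurable Y)

include hY in
lemma meas_acc {D : Set E} (hD : MeasurableSet D) : Measurable (acc Y D) := by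
  intro A hA
  rw [preim]
  refine (MeasurableSet.iUnion fun n => meas_ev hD.compl (hD.inter (hY hA)) n).union
    ((MeasurableSet.iUnion fun n => meas_ev hD.compl hD n).compl.inter ?_)
  exact (hY.comp (measurable_pi_apply 0)) hA

include hY in
lemma law_acc {D : Set E} (hD : MeasurableSet D) (hD0 : Q D ≠ 0) {A : Set ℝ}
    (hA : MeasurableSet A) : (Measure.infinitePi (fun _ : ℕ => Q)).map (acc Y D) A =
      (Q D)⁻¹ * Q (D ∩ Y ⁻¹' A) := by
  rw [Measure.map_apply (meas_acc hY hD) hA, preim]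
  have h1 : Measure.infinitePi (fun _ : ℕ => Q) (⋃ n, ev Dᶜ D n)ᶜ = 0 := by
    rw [prob_compl_eq_zero_iff (MeasurableSet.iUnion fun n => meas_ev hD.compl hD n),
      PP_union Q hD hD subset_rfl]
    exact ENNReal.inv_mul_cancel hD0 (measure_ne_top Q D)
  have h2 : Measure.infinitePi (fun _ : ℕ => Q) ((⋃ n, ev Dᶜ D n)ᶜ ∩ {ω | Y (ω 0) ∈ A}) = 0 :=
    measure_mono_null Set.inter_subset_left h1
  rw [← PP_union Q hD (hD.inter (hY hA)) Set.inter_subset_left]
  refine le_antisymm ((measure_union_le _ _).trans ?_) (measure_mono Set.subset_union_left)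
  rw [h2, add_zero]

lemma dis_acc (Y : E → ℝ) {D1 D2 : Set E} (h1 : MeasurableSet D1) (h2 : MeasurableSet D2) :
    (Measure.infinitePi (fun _ : ℕ => Q)).real {ω | acc Y D1 ω ≠ acc Y D2 ω} ≤
      1 - Q.real (D1 ∩ D2) / Q.real (D1 ∪ D2) := by
  have hsub : {ω | acc Y D1 ω ≠ acc Y D2 ω} ⊆ (⋃ n, ev (D1 ∪ D2)ᶜ (D1 ∩ D2) n)ᶜ := by
    intro ω hω hin
    rw [Set.mem_iUnion] at hin
    obtain ⟨n, hn⟩ := hin
    apply hω
    have e1 : tau D1 ω = n := tau_of_ev (C := D1) subset_rfl
      ⟨fun m hm h => hn.1 m hm (Or.inl h), hn.2.1⟩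
    have e2 : tau D2 ω = n := tau_of_ev (C := D2) subset_rfl
      ⟨fun m hm h => hn.1 m hm (Or.inr h), hn.2.2⟩
    rw [acc, acc, e1, e2]
  refine (measureReal_mono hsub).trans ?_
  rw [probReal_compl_eq_one_sub (MeasurableSet.iUnion fun n =>
    meas_ev (h1.union h2).compl (h1.inter h2) n)]
  have : (Measure.infinitePi (fun _ : ℕ => Q)).real (⋃ n, ev (D1 ∪ D2)ᶜ (D1 ∩ D2) n) =
      Q.real (D1 ∩ D2) / Q.real (D1 ∪ D2) := by
    rw [Measure.real, PP_union Q (h1.union h2) (h1.inter h2)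
      (Set.inter_subset_left.trans Set.subset_union_left), ENNReal.toReal_mul, ENNReal.toReal_inv]
    rw [Measure.real, Measure.real, div_eq_mul_inv, mul_comm]
  rw [this]

end

/-- densities bounded by one -/
lemma dens (μ ν : Measure ℝ) [IsFiniteMeasure μ] [IsFiniteMeasure ν] (h : μ ≤ ν) :
    ∃ r : ℝ → ℝ, Measurable r ∧ (∀ y, 0 ≤ r y) ∧ (∀ y, r y ≤ 1) ∧
      ∀ A, MeasurableSet A → μ A = ∫⁻ y in A, ENNReal.ofReal (r y) ∂ν := by
  have hac : μ ≪ ν := Measure.absolutelyContinuous_of_le h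
  have hle : μ.rnDeriv ν ≤ᵐ[ν] fun _ => 1 := by
    apply ae_le_of_forall_setLIntegral_le_of_sigmaFinite (Measure.measurable_rnDeriv μ ν)
    intro s hs _
    rw [Measure.setLIntegral_rnDeriv' hac hs, setLIntegral_one]
    exact h s
  refine ⟨fun y => min ((μ.rnDeriv ν y).toReal) 1, ?_, fun y => le_min ENNReal.toReal_nonneg
    zero_le_one, fun y => min_le_right _ _, ?_⟩
  · exact ((Measure.measurable_rnDeriv μ ν).ennreal_toReal).min measurable_const
  · intro A hA
    rw [← Measure.setLIntegral_rnDeriv' hac hA]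
    apply setLIntegral_congr_fun_ae hA
    filter_upwards [hle] with y hy _
    have hne : μ.rnDeriv ν y ≠ ⊤ := ne_top_of_le_ne_top ENNReal.one_ne_top hy
    have h1 : (μ.rnDeriv ν y).toReal ≤ 1 := by
      have := ENNReal.toReal_mono ENNReal.one_ne_top hy
      simpa using this
    rw [min_eq_left h1, ENNReal.ofReal_toReal hne]

end Pool.Agent.X144.DB
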